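import Pool.Agent.H562Z.Cone.Defs

/-!
# Completely positive maps through Gram decompositions
-/

set_option autoImplicit false
set_option linter.unusedSectionVars false
set_option linter.style.haveILetI false
set_option linter.unusedSimpArgs false
set_option linter.deprecated false

namespace Pool.Agent.H562Z.Cone

open scoped CStarAlgebra ComplexOrder InnerProductSpace ComplexConjugate WithCStarModule

theorem gram_decomp {E : Type} [NormedAddCommGroup E] [InnerProductSpace ℂ E] {Z : Type}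
    [Finite Z] (u : Z → E) :
    ∃ (n : ℕ) (c : Fin n → Z → ℂ), ∀ s t, ⟪u s, u t⟫_ℂ = ∑ i, conj (c i s) * c i t := by
  let K : Submodule ℂ E := Submodule.span ℂ (Set.range u)
  haveI : FiniteDimensional ℂ K := FiniteDimensional.span_of_finite ℂ (Set.finite_range u)
  let b := stdOrthonormalBasis ℂ K
  let v : Z → K := fun s => ⟨u s, Submodule.subset_span ⟨s, rfl⟩⟩
  refine ⟨_, fun i s => ⟪b i, v s⟫_ℂ, fun s t => ?_⟩
  have h := b.sum_inner_mul_inner (v s) (v t)
  have h2 : ⟪u s, u t⟫_ℂ = ⟪v s, v t⟫_ℂ := rfl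
  rw [h2, ← h]
  refine Finset.sum_congr rfl fun i _ => ?_
  rw [inner_conj_symm]

theorem modCS {B : Type} [NonUnitalCStarAlgebra B] {ι : Type} [Fintype ι] (p q : ι → B) :
    ‖∑ i, star (p i) * q i‖ ^ 2 ≤ ‖∑ i, star (p i) * p i‖ * ‖∑ i, star (q i) * q i‖ := by
  letI : PartialOrder B := CStarAlgebra.spectralOrder B
  haveI : StarOrderedRing B := CStarAlgebra.spectralOrderedRing B
  let x : C⋆ᵐᵒᵈ(B, ι → B) := (WithCStarModule.equiv B _).symm fun i => star (q i)
  let y : C⋆ᵐᵒᵈ(B, ι → B) := (WithCStarModule.equiv B _).symm fun i => star (p i)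
  have h := CStarModule.norm_inner_le (A := B) C⋆ᵐᵒᵈ(B, ι → B) (x := x) (y := y)
  have h1 : ⟪x, y⟫_B = ∑ i, star (p i) * q i := by
    rw [WithCStarModule.pi_inner]
    refine Finset.sum_congr rfl fun i _ => ?_
    rw [WithCStarModule.inner_def]
    simp [x, y]
  have h2 : ‖x‖ ^ 2 = ‖∑ i, star (q i) * q i‖ := by
    rw [WithCStarModule.pi_norm_sq]
    congr 1
    refine Finset.sum_congr rfl fun i _ => ?_
    rw [WithCStarModule.inner_def]
    simp [x]
  have h3 : ‖y‖ ^ 2 = ‖∑ i, star (p i) * p i‖ := by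
    rw [WithCStarModule.pi_norm_sq]
    congr 1
    refine Finset.sum_congr rfl fun i _ => ?_
    rw [WithCStarModule.inner_def]
    simp [y]
  rw [← h1, ← h2, ← h3, ← mul_pow, mul_comm]
  exact pow_le_pow_left₀ (norm_nonneg _) h 2

theorem exists_sq {C : Type} [NonUnitalCStarAlgebra C] [PartialOrder C] [StarOrderedRing C]
    (a : C) (ha : 0 ≤ a) : ∃ b, a = star b * b := CStarAlgebra.nonneg_iff_eq_star_mul_self.1 ha

theorem norm_one_le' {C : Type} [CStarAlgebra C] : ‖(1 : C)‖ ≤ 1 := by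
  rcases subsingleton_or_nontrivial C with h | h
  · rw [Subsingleton.elim (1 : C) 0, norm_zero]; exact zero_le_one
  · exact norm_one.le

/-- The Gram property of a linear map. -/
def Gram {A B : Type} [CStarAlgebra A] [CStarAlgebra B] (θ : A →ₗ[ℂ] B) : Prop :=
  ∀ (k : ℕ) (a : Fin k → A), ∃ (ι : Type) (_ : Fintype ι) (b : ι → Fin k → B),
    ∀ p q, θ (star (a p) * a q) = ∑ i, star (b i p) * b i q

section G

variable {A B : Type} [CStarAlgebra A] [CStarAlgebra B] [PartialOrder A] [StarOrderedRing A]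
  [PartialOrder B] [StarOrderedRing B]

theorem rank_one_nonneg {k : ℕ} (b : Fin k → B) :
    (0 : CStarMatrix (Fin k) (Fin k) B) ≤ CStarMatrix.ofMatrix fun p q => star (b p) * b q := by
  rcases Nat.eq_zero_or_pos k with rfl | hk
  · exact le_of_eq (by ext p; exact p.elim0)
  let W : CStarMatrix (Fin k) (Fin k) B :=
    CStarMatrix.ofMatrix fun z q => if z = ⟨0, hk⟩ then b q else 0
  have : (CStarMatrix.ofMatrix fun p q => star (b p) * b q) = star W * W := by
    ext p q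
    rw [CStarMatrix.mul_apply, Finset.sum_eq_single ⟨0, hk⟩]
    · simp [W, CStarMatrix.star_apply]
    · intro z _ hz
      simp [W, CStarMatrix.star_apply, hz]
    · simp
  rw [this]
  exact star_mul_self_nonneg W

theorem cm_sum_apply {k : ℕ} {ι : Type} (s : Finset ι) (M : ι → CStarMatrix (Fin k) (Fin k) B)
    (p q : Fin k) : (∑ i ∈ s, M i) p q = ∑ i ∈ s, M i p q := by
  classical
  induction s using Finset.induction_on with
  | empty => simp
  | insert a s ha ih => rw [Finset.sum_insert ha, Finset.sum_insert ha, CStarMatrix.add_apply, ih]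

theorem Gram.matrix_nonneg {θ : A →ₗ[ℂ] B} (h : Gram θ) (k : ℕ)
    (M : CStarMatrix (Fin k) (Fin k) A) (hM : 0 ≤ M) : 0 ≤ M.map θ := by
  obtain ⟨N, rfl⟩ := exists_sq M hM
  choose ι hι b hb using fun z : Fin k => h k (fun p => N z p)
  have : (star N * N).map θ = ∑ z : Fin k, ∑ i : ι z,
      CStarMatrix.ofMatrix fun p q => star (b z i p) * b z i q := by
    ext p q
    rw [CStarMatrix.map_apply, CStarMatrix.mul_apply, map_sum, cm_sum_apply]
    refine Finset.sum_congr rfl fun z _ => ?_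
    rw [cm_sum_apply, CStarMatrix.star_apply, hb]
    rfl
  rw [this]
  exact Finset.sum_nonneg fun z _ => Finset.sum_nonneg fun i _ => rank_one_nonneg _

/-- a map with the Gram property is completely positive -/
def Gram.cp {θ : A →ₗ[ℂ] B} (h : Gram θ) : A →CP B :=
  { θ with map_cstarMatrix_nonneg' := h.matrix_nonneg }

theorem Gram.cp_apply {θ : A →ₗ[ℂ] B} (h : Gram θ) (a : A) : h.cp a = θ a := rfl

theorem Gram.nonneg {θ : A →ₗ[ℂ] B} (h : Gram θ) (a : A) (ha : 0 ≤ a) : 0 ≤ θ a := by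
  obtain ⟨c, rfl⟩ := CStarAlgebra.nonneg_iff_eq_star_mul_self.1 ha
  obtain ⟨ι, _, b, hb⟩ := h 1 (fun _ => c)
  rw [hb 0 0]
  exact Finset.sum_nonneg fun i _ => star_mul_self_nonneg _

end G

theorem Gram.norm_sq_le {A B : Type} [CStarAlgebra A] [CStarAlgebra B] {θ : A →ₗ[ℂ] B}
    (h : Gram θ) (a : A) : ‖θ (star a * a)‖ ≤ ‖θ 1‖ * ‖a‖ ^ 2 := by
  letI : PartialOrder A := CStarAlgebra.spectralOrder A
  haveI : StarOrderedRing A := CStarAlgebra.spectralOrderedRing A
  letI : PartialOrder B := CStarAlgebra.spectralOrder B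
  haveI : StarOrderedRing B := CStarAlgebra.spectralOrderedRing B
  let f : A →ₚ[ℂ] B := PositiveLinearMap.mk₀ θ h.nonneg
  have := f.norm_apply_le_of_nonneg (star a * a) (star_mul_self_nonneg a)
  rw [CStarRing.norm_star_mul_self, ← pow_two] at this
  exact this

theorem Gram.contr {A B : Type} [CStarAlgebra A] [CStarAlgebra B] {θ : A →ₗ[ℂ] B}
    (h : Gram θ) (h1 : ‖θ 1‖ ≤ 1) (a : A) : ‖θ a‖ ≤ ‖a‖ := by
  obtain ⟨ι, _, b, hb⟩ := h 2 ![1, a]
  have e1 := hb 0 1
  have e2 := hb 0 0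
  have e3 := hb 1 1
  simp only [Matrix.cons_val_zero, Matrix.cons_val_one, star_one, one_mul] at e1 e2 e3
  have e4 := modCS (fun i => b i 0) (fun i => b i 1)
  rw [← e1, ← e2, ← e3] at e4
  have e5 := h.norm_sq_le a
  have e6 : ‖θ a‖ ^ 2 ≤ ‖a‖ ^ 2 := by
    calc ‖θ a‖ ^ 2 ≤ ‖θ 1‖ * ‖θ (star a * a)‖ := e4
      _ ≤ 1 * (1 * ‖a‖ ^ 2) := by
        refine mul_le_mul h1 (e5.trans ?_) (norm_nonneg _) zero_le_one
        exact mul_le_mul_of_nonneg_right h1 (sq_nonneg _)
      _ = ‖a‖ ^ 2 := by ring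
  exact (pow_le_pow_iff_left₀ (norm_nonneg _) (norm_nonneg _) two_ne_zero).1 e6

theorem sum_expand {B : Type} [CStarAlgebra B] {X Y : Type} [Fintype X] [Fintype Y]
    (c : X → ℂ) (d : Y → ℂ) (r : X → B) (t : Y → B) :
    star (∑ x, c x • star (r x)) * (∑ y, d y • star (t y)) =
      ∑ x, ∑ y, (conj (c x) * d y) • (r x * star (t y)) := by
  rw [star_sum, Finset.sum_mul]
  refine Finset.sum_congr rfl fun x _ => ?_
  rw [Finset.mul_sum]
  refine Finset.sum_congr rfl fun y _ => ?_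
  rw [star_smul, star_star, smul_mul_smul_comm]
  rfl

theorem sum_gram {B : Type} [CStarAlgebra B] {X Y ι : Type} [Fintype X] [Fintype Y] [Fintype ι]
    (c : ι → X → ℂ) (d : ι → Y → ℂ) (r : X → B) (t : Y → B) :
    ∑ x, ∑ y, (∑ i, conj (c i x) * d i y) • (r x * star (t y)) =
      ∑ i, star (∑ x, c i x • star (r x)) * (∑ y, d i y • star (t y)) := by
  simp_rw [sum_expand, Finset.sum_smul]
  rw [Finset.sum_comm (s := Finset.univ (α := ι))]
  refine Finset.sum_congr rfl fun x _ => ?_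
  rw [Finset.sum_comm]

/-- the map `M ↦ ∑ M x y • r x r y*` -/
noncomputable def psiL {B : Type} [CStarAlgebra B] {k : ℕ} (r : Fin k → B) :
    CStarMatrix (Fin k) (Fin k) ℂ →ₗ[ℂ] B where
  toFun M := ∑ x, ∑ y, M x y • (r x * star (r y))
  map_add' M N := by simp [add_smul, Finset.sum_add_distrib]
  map_smul' c M := by simp [Finset.smul_sum, smul_smul]

theorem psiL_apply {B : Type} [CStarAlgebra B] {k : ℕ} (r : Fin k → B)
    (M : CStarMatrix (Fin k) (Fin k) ℂ) : psiL r M = ∑ x, ∑ y, M x y • (r x * star (r y)) := rfl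

theorem gram_psiL {B : Type} [CStarAlgebra B] {k : ℕ} (r : Fin k → B) : Gram (psiL r) := by
  intro l a
  refine ⟨Fin k, inferInstance, fun z p => ∑ x, a p z x • star (r x), fun p q => ?_⟩
  rw [psiL_apply, ← sum_gram]
  refine Finset.sum_congr rfl fun x _ => Finset.sum_congr rfl fun y _ => ?_
  rw [CStarMatrix.mul_apply]
  rfl

theorem psiL_one {B : Type} [CStarAlgebra B] {k : ℕ} (r : Fin k → B) :
    psiL r 1 = ∑ x, r x * star (r x) := by
  rw [psiL_apply]
  refine Finset.sum_congr rfl fun x _ => ?_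
  rw [Finset.sum_eq_single x]
  · simp
  · intro y _ hy
    rw [CStarMatrix.one_apply_ne (Ne.symm hy), zero_smul]
  · simp

section phi

variable {A H J : Type} [CStarAlgebra A] [NormedAddCommGroup H] [InnerProductSpace ℂ H]
  [CompleteSpace H] [Fintype J]

/-- the map `a ↦ (∑ j, ⟪η j x, π j a (η j y)⟫)_{x,y}` -/
noncomputable def phiL {k : ℕ} (π : J → (A →⋆ₐ[ℂ] (H →L[ℂ] H))) (η : J → Fin k → H) :
    A →ₗ[ℂ] CStarMatrix (Fin k) (Fin k) ℂ where
  toFun a := CStarMatrix.ofMatrix fun x y => ∑ j, ⟪η j x, π j a (η j y)⟫_ℂ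
  map_add' a b := by
    ext x y
    simp [inner_add_right, Finset.sum_add_distrib]
  map_smul' c a := by
    ext x y
    simp [inner_smul_right, Finset.mul_sum]

theorem phiL_apply {k : ℕ} (π : J → (A →⋆ₐ[ℂ] (H →L[ℂ] H))) (η : J → Fin k → H) (a : A)
    (x y : Fin k) : phiL π η a x y = ∑ j, ⟪η j x, π j a (η j y)⟫_ℂ := rfl

theorem inner_star_mul (S T : H →L[ℂ] H) (x y : H) :
    ⟪x, (star S * T) y⟫_ℂ = ⟪S x, T y⟫_ℂ := by
  rw [ContinuousLinearMap.mul_apply, ContinuousLinearMap.star_eq_adjoint,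
    ContinuousLinearMap.adjoint_inner_right]

theorem gram_phiL {k : ℕ} (hk : 0 < k) (π : J → (A →⋆ₐ[ℂ] (H →L[ℂ] H))) (η : J → Fin k → H) :
    Gram (phiL π η) := by
  intro l a
  choose n c hc using fun j : J => gram_decomp (fun s : Fin l × Fin k => π j (a s.1) (η j s.2))
  refine ⟨Σ j : J, Fin (n j), inferInstance,
    fun i p => CStarMatrix.ofMatrix fun z x => if z = ⟨0, hk⟩ then c i.1 i.2 (p, x) else 0,
    fun p q => ?_⟩
  ext x y
  rw [phiL_apply, cm_sum_apply, Fintype.sum_sigma]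
  refine Finset.sum_congr rfl fun j _ => ?_
  rw [map_mul, map_star, inner_star_mul, hc j (p, x) (q, y)]
  refine Finset.sum_congr rfl fun i _ => ?_
  rw [CStarMatrix.mul_apply, Finset.sum_eq_single ⟨0, hk⟩]
  · simp [CStarMatrix.star_apply]
  · intro z _ hz
    simp [CStarMatrix.star_apply, hz]
  · simp

end phi

/-- Criterion for nuclearity. -/
theorem nuclear_crit {A H : Type} [CStarAlgebra A] [PartialOrder A] [StarOrderedRing A]
    [NormedAddCommGroup H] [InnerProductSpace ℂ H] [CompleteSpace H]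
    (h : ∀ (F : Finset A) (ε : ℝ), 0 < ε → ∃ (J X : Type) (_ : Fintype J) (_ : Fintype X)
      (_ : DecidableEq X) (_ : Nonempty X) (π : J → (A →⋆ₐ[ℂ] (H →L[ℂ] H))) (η : J → X → H)
      (r : X → A), (∀ x y, ∑ j, ⟪η j x, η j y⟫_ℂ = if x = y then 1 else 0) ∧
        ∑ x, r x * star (r x) = 1 ∧ ∀ a ∈ F,
        ‖∑ x, ∑ y, (∑ j, ⟪η j x, π j a (η j y)⟫_ℂ) • (r x * star (r y)) - a‖ < ε) :
    IsNuclear A := by
  intro F ε hε
  obtain ⟨J, X, _, _, _, _, π, η, r, h1, h2, h3⟩ := h F ε hε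
  let e : Fin (Fintype.card X) ≃ X := (Fintype.equivFin X).symm
  have hk : 0 < Fintype.card X := Fintype.card_pos
  have g1 := gram_phiL hk π (fun j x => η j (e x))
  have g2 := gram_psiL (fun x => r (e x))
  refine ⟨_, g1.cp, g2.cp, fun x => g1.contr ?_ x, fun y => g2.contr ?_ y, fun a ha => ?_⟩
  · have : phiL π (fun j x => η j (e x)) 1 = 1 := by
      ext x y
      rw [phiL_apply, CStarMatrix.one_apply]
      simp only [map_one, ContinuousLinearMap.one_apply]
      rw [h1]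
      simp
    rw [this]
    exact norm_one_le'
  · rw [psiL_one, e.sum_comp (fun x => r x * star (r x)), h2]
    exact norm_one_le'
  · rw [Gram.cp_apply, Gram.cp_apply, psiL_apply]
    have := h3 a ha
    rw [← e.sum_comp] at this
    simp_rw [← e.sum_comp (fun y => (∑ j, ⟪η j _, π j a (η j y)⟫_ℂ) • (r _ * star (r y)))] at this
    exact this

section TCS

variable {D H : Type} [CStarAlgebra D] [NormedAddCommGroup H] [InnerProductSpace ℂ H]
  [CompleteSpace H]

/-- the map `a ↦ ∑ ⟪ζ y, a (ζ y')⟫ • t y t y'*` -/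
noncomputable def thL {Y : Type} [Fintype Y] (ζ : Y → H) (t : Y → D) : (H →L[ℂ] H) →ₗ[ℂ] D where
  toFun a := ∑ y, ∑ y', ⟪ζ y, a (ζ y')⟫_ℂ • (t y * star (t y'))
  map_add' a b := by simp [inner_add_right, add_smul, Finset.sum_add_distrib]
  map_smul' c a := by simp [inner_smul_right, Finset.smul_sum, smul_smul]

theorem thL_apply {Y : Type} [Fintype Y] (ζ : Y → H) (t : Y → D) (a : H →L[ℂ] H) :
    thL ζ t a = ∑ y, ∑ y', ⟪ζ y, a (ζ y')⟫_ℂ • (t y * star (t y')) := rfl

theorem gram_thL {Y : Type} [Fintype Y] (ζ : Y → H) (t : Y → D) : Gram (thL ζ t) := by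
  intro l a
  obtain ⟨n, c, hc⟩ := gram_decomp (fun s : Fin l × Y => a s.1 (ζ s.2))
  refine ⟨Fin n, inferInstance, fun i p => ∑ y, c i (p, y) • star (t y), fun p q => ?_⟩
  rw [thL_apply, ← sum_gram]
  refine Finset.sum_congr rfl fun x _ => Finset.sum_congr rfl fun y _ => ?_
  rw [inner_star_mul, hc (p, x) (q, y)]

theorem sum_orth {Y : Type} [Fintype Y] (ζ : Y → H) (hζ : Orthonormal ℂ ζ) (t : Y → D) :
    ∑ y, ∑ y', ⟪ζ y, ζ y'⟫_ℂ • (t y * star (t y')) = ∑ y, t y * star (t y) := by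
  classical
  refine Finset.sum_congr rfl fun x _ => ?_
  rw [Finset.sum_eq_single x]
  · rw [orthonormal_iff_ite.1 hζ x x, if_pos rfl, one_smul]
  · intro y _ hy
    rw [orthonormal_iff_ite.1 hζ x y, if_neg (Ne.symm hy), zero_smul]
  · simp

theorem tcs {X Y : Type} [Fintype X] [Fintype Y] (η : X → H) (ζ : Y → H) (hη : Orthonormal ℂ η)
    (hζ : Orthonormal ℂ ζ) (r : X → D) (t : Y → D) (a : H →L[ℂ] H) :
    ‖∑ x, ∑ y, ⟪η x, a (ζ y)⟫_ℂ • (r x * star (t y))‖ ^ 2 ≤
      ‖∑ x, r x * star (r x)‖ * (‖∑ y, t y * star (t y)‖ * ‖a‖ ^ 2) := by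
  obtain ⟨n, c, hc⟩ := gram_decomp (Sum.elim η (fun y => a (ζ y)) : X ⊕ Y → H)
  have e1 : ∑ x, ∑ y, ⟪η x, a (ζ y)⟫_ℂ • (r x * star (t y)) =
      ∑ i, star (∑ x, c i (.inl x) • star (r x)) * (∑ y, c i (.inr y) • star (t y)) := by
    rw [← sum_gram]
    refine Finset.sum_congr rfl fun x _ => Finset.sum_congr rfl fun y _ => ?_
    rw [← hc]
    rfl
  have e2 : ∑ x, r x * star (r x) =
      ∑ i, star (∑ x, c i (.inl x) • star (r x)) * (∑ y, c i (.inl y) • star (r y)) := by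
    rw [← sum_gram, ← sum_orth η hη]
    refine Finset.sum_congr rfl fun x _ => Finset.sum_congr rfl fun y _ => ?_
    rw [← hc]
    rfl
  have e3 : thL ζ t (star a * a) =
      ∑ i, star (∑ x, c i (.inr x) • star (t x)) * (∑ y, c i (.inr y) • star (t y)) := by
    rw [← sum_gram, thL_apply]
    refine Finset.sum_congr rfl fun x _ => Finset.sum_congr rfl fun y _ => ?_
    rw [← hc, inner_star_mul]
    rfl
  have e4 := modCS (fun i => ∑ x, c i (.inl x) • star (r x))
    (fun i => ∑ y, c i (.inr y) • star (t y))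
  rw [← e1, ← e2, ← e3] at e4
  refine e4.trans (mul_le_mul_of_nonneg_left ?_ (norm_nonneg _))
  have e5 := (gram_thL ζ t).norm_sq_le a
  have e6 : thL ζ t 1 = ∑ y, t y * star (t y) := by
    rw [thL_apply, ← sum_orth ζ hζ]
    rfl
  rwa [e6] at e5

end TCS

end Pool.Agent.H562Z.Cone
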