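import Pool.Agent.H562Z.Cone.Pure

/-!
# The unital cone over a C*-algebra
-/

set_option autoImplicit false
set_option linter.unusedSectionVars false
set_option linter.style.haveILetI false
set_option linter.unusedSimpArgs false
set_option linter.deprecated false

namespace Pool.Agent.H562Z.Cone

open scoped CStarAlgebra ComplexOrder InnerProductSpace ComplexConjugate unitInterval Topology
open Filter

/-- continuous functions `[0,1] → D` whose value at `0` is a scalar -/
noncomputable def coneSub (D : Type) [CStarAlgebra D] : StarSubalgebra ℂ C(I, D) where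
  carrier := {f | ∃ c : ℂ, c • (1 : D) = f 0}
  mul_mem' := by
    rintro f g ⟨a, ha⟩ ⟨b, hb⟩
    exact ⟨a * b, by rw [ContinuousMap.mul_apply, ← ha, ← hb, smul_mul_smul_comm, one_mul]⟩
  add_mem' := by
    rintro f g ⟨a, ha⟩ ⟨b, hb⟩
    exact ⟨a + b, by rw [ContinuousMap.add_apply, ← ha, ← hb, add_smul]⟩
  algebraMap_mem' := fun c => ⟨c, by simp [Algebra.algebraMap_eq_smul_one]⟩
  star_mem' := by
    rintro f ⟨a, ha⟩
    exact ⟨star a, by rw [ContinuousMap.star_apply, ← ha, star_smul, star_one]⟩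

variable {D : Type} [CStarAlgebra D]

theorem mem_coneSub (f : C(I, D)) : f ∈ coneSub D ↔ ∃ c : ℂ, c • (1 : D) = f 0 := Iff.rfl

theorem coneClosed : IsClosed (coneSub D : Set C(I, D)) := by
  have h1 : IsClosed ((Submodule.span ℂ {(1 : D)} : Submodule ℂ D) : Set D) :=
    Submodule.closed_of_finiteDimensional _
  have h2 : (coneSub D : Set C(I, D)) =
      (fun f : C(I, D) => f 0) ⁻¹' ((Submodule.span ℂ {(1 : D)} : Submodule ℂ D) : Set D) := by
    ext f
    rw [SetLike.mem_coe, mem_coneSub, Set.mem_preimage, SetLike.mem_coe,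
      Submodule.mem_span_singleton]
  rw [h2]
  exact h1.preimage (continuous_eval_const 0)

/-- the unital cone as a type -/
def ConeA (D : Type) [CStarAlgebra D] : Type := coneSub D

noncomputable instance : CStarAlgebra (ConeA D) :=
  StarSubalgebra.cstarAlgebra (coneSub D) (h_closed := coneClosed)

/-- the underlying function -/
def ConeA.fn (f : ConeA D) : C(I, D) := Subtype.val f

theorem ConeA.mem (f : ConeA D) : ∃ c : ℂ, c • (1 : D) = f.fn 0 := Subtype.property f

/-- evaluation -/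
noncomputable def ev (t : I) : ConeA D →⋆ₐ[ℂ] D where
  toFun f := f.fn t
  map_one' := rfl
  map_mul' _ _ := rfl
  map_zero' := rfl
  map_add' _ _ := rfl
  commutes' _ := rfl
  map_star' _ := rfl

theorem ev_apply (t : I) (f : ConeA D) : ev t f = f.fn t := rfl

theorem ev_cont (f : ConeA D) : Continuous fun t => ev t f := f.fn.continuous

theorem ev_ext {f g : ConeA D} (h : ∀ t, ev t f = ev t g) : f = g :=
  Subtype.ext (ContinuousMap.ext h)

theorem cone_norm_le (f : ConeA D) {c : ℝ} (hc : 0 ≤ c) (h : ∀ t, ‖ev t f‖ ≤ c) : ‖f‖ ≤ c :=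
  (ContinuousMap.norm_le f.fn hc).2 h

theorem idem_gap {n : ℕ} (p : Matrix (Fin n) (Fin n) D) (hp : p * p = p) :
    ∑ i, ∑ j, ‖p i j‖ = 0 ∨ 1 ≤ ∑ i, ∑ j, ‖p i j‖ := by
  set s := ∑ i, ∑ j, ‖p i j‖ with hs
  have h0 : 0 ≤ s := Finset.sum_nonneg fun _ _ => Finset.sum_nonneg fun _ _ => norm_nonneg _
  have h1 : s ≤ s * s := by
    calc s = ∑ i, ∑ j, ‖∑ k, p i k * p k j‖ := by
          refine Finset.sum_congr rfl fun i _ => Finset.sum_congr rfl fun j _ => ?_
          rw [← Matrix.mul_apply, hp]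
      _ ≤ ∑ i, ∑ j, ∑ k, ‖p i k‖ * ∑ l, ‖p l j‖ := by
          refine Finset.sum_le_sum fun i _ => Finset.sum_le_sum fun j _ => ?_
          refine (norm_sum_le _ _).trans (Finset.sum_le_sum fun k _ => ?_)
          refine (norm_mul_le _ _).trans (mul_le_mul_of_nonneg_left ?_ (norm_nonneg _))
          exact Finset.single_le_sum (f := fun l => ‖p l j‖) (fun _ _ => norm_nonneg _)
            (Finset.mem_univ k)
      _ = s * s := by
          simp_rw [← Finset.sum_mul, ← Finset.mul_sum]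
          rw [← Finset.sum_mul]
          congr 1
          rw [hs, Finset.sum_comm]
  rcases h0.eq_or_lt with h | h
  · exact Or.inl h.symm
  · right
    by_contra hc
    push Not at hc
    nlinarith

theorem idem_of {R : Type} [Ring R] (a b : R) (h : b * a = 1) :
    (1 - a * b) * (1 - a * b) = 1 - a * b := by
  rw [sub_mul, one_mul, mul_sub, mul_one, mul_assoc a, ← mul_assoc b, h, one_mul]
  simp

theorem cone_stablyFinite : IsStablyFinite (ConeA D) := by
  intro n v hv
  let p : Matrix (Fin n) (Fin n) (ConeA D) := 1 - v * star v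
  have hp : p * p = p := idem_of v (star v) hv
  let E : I → (Matrix (Fin n) (Fin n) (ConeA D) →+* Matrix (Fin n) (Fin n) D) := fun t =>
    (ev (D := D) t).toAlgHom.toRingHom.mapMatrix
  have hE : ∀ t M i j, E t M i j = ev t (M i j) := fun _ _ _ _ => rfl
  let s : I → ℝ := fun t => ∑ i, ∑ j, ‖E t p i j‖
  have hs : Continuous s := by
    refine continuous_finset_sum _ fun i _ => continuous_finset_sum _ fun j _ => ?_
    exact (ev_cont (p i j)).norm
  have hgap : ∀ t, s t = 0 ∨ 1 ≤ s t := fun t => idem_gap _ (by rw [← map_mul, hp])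
  have h0 : s 0 = 0 := by
    rcases subsingleton_or_nontrivial D with hD | hD
    · simp [s, Subsingleton.elim (E 0 p _ _) 0]
    choose c hc using fun i j => (v i j).mem
    let cm : Matrix (Fin n) (Fin n) ℂ := Matrix.of c
    let G : Matrix (Fin n) (Fin n) ℂ →+* Matrix (Fin n) (Fin n) D :=
      (algebraMap ℂ D).mapMatrix
    have hG : ∀ M i j, G M i j = M i j • (1 : D) := fun M i j => Algebra.algebraMap_eq_smul_one _
    have e1 : E 0 v = G cm := by
      ext i j
      rw [hE, hG, ev_apply, ← hc]; rfl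
    have e2 : E 0 (star v) = G (star cm) := by
      ext i j
      rw [hE, hG, Matrix.star_apply, Matrix.star_apply, map_star, ev_apply, ← hc, star_smul,
        star_one]; rfl
    have hGi : Function.Injective G := fun M N h =>
      Matrix.map_injective (algebraMap ℂ D).injective h
    have e3 : star cm * cm = 1 := by
      apply hGi
      rw [map_mul, ← e1, ← e2, ← map_mul, hv, map_one, map_one]
    have e4 : cm * star cm = 1 := mul_eq_one_comm.1 e3
    have e5 : E 0 p = 0 := by
      simp only [p]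
      rw [map_sub, map_mul, map_one, e1, e2, ← map_mul, e4, map_one, sub_self]
    simp [s, e5]
  have hall : ∀ t, s t = 0 := by
    intro t
    rcases hgap t with h | h
    · exact h
    exfalso
    have hm : (1 / 2 : ℝ) ∈ Set.Icc (s 0) (s t) := by
      rw [h0]; constructor <;> linarith
    obtain ⟨u, hu⟩ := intermediate_value_univ 0 t hs hm
    rcases hgap u with h' | h' <;> linarith
  have hp0 : p = 0 := by
    ext i j : 2
    refine ev_ext fun t => ?_
    have h1 := (Finset.sum_eq_zero_iff_of_nonneg (fun i _ => Finset.sum_nonneg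
      fun j _ => norm_nonneg _)).1 (hall t) i (Finset.mem_univ _)
    have h2 := (Finset.sum_eq_zero_iff_of_nonneg (fun j _ => norm_nonneg _)).1 h1 j
      (Finset.mem_univ _)
    rw [norm_eq_zero, hE] at h2
    rw [h2, Matrix.zero_apply, map_zero]
  exact (sub_eq_zero.1 hp0).symm

theorem cone_separable [TopologicalSpace.SeparableSpace D] :
    TopologicalSpace.SeparableSpace (ConeA D) := by
  haveI : SecondCountableTopology D := UniformSpace.secondCountable_of_separable D
  exact inferInstanceAs (TopologicalSpace.SeparableSpace (coneSub D))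

/-- `t ↦ g t • d` -/
noncomputable def sm (g : C(I, ℝ)) (d : D) (h : g 0 = 0 ∨ d = 1 ∨ d = 0) : ConeA D :=
  (⟨⟨fun t => (g t : ℂ) • d, by fun_prop⟩, by
    rw [mem_coneSub]
    rcases h with h | h | h
    · exact ⟨0, by simp [h]⟩
    · exact ⟨g 0, by simp [h]⟩
    · exact ⟨0, by simp [h]⟩⟩ : coneSub D)

theorem ev_sm (g : C(I, ℝ)) (d : D) (h : g 0 = 0 ∨ d = 1 ∨ d = 0) (t : I) :
    ev t (sm g d h) = (g t : ℂ) • d := rfl

theorem approx_iso (S T a b : D) (hS : ‖S‖ ≤ 1) (hT : ‖T‖ ≤ 1) (ha : ‖a - S‖ ≤ 1 / 10)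
    (hb : ‖b - T‖ ≤ 1 / 10) : ‖star a * b - star S * T‖ ≤ 1 / 4 := by
  have e : star a * b - star S * T = star (a - S) * (b - T) + star (a - S) * T
      + star S * (b - T) := by
    rw [star_sub]; noncomm_ring
  rw [e]
  have h1 := norm_mul_le (star (a - S)) (b - T)
  have h2 := norm_mul_le (star (a - S)) T
  have h3 := norm_mul_le (star S) (b - T)
  rw [norm_star] at h1 h2 h3
  have n1 := norm_nonneg (a - S)
  have n2 := norm_nonneg (b - T)
  have n3 := norm_nonneg S
  have n4 := norm_nonneg T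
  refine norm_add₃_le.trans ?_
  nlinarith

theorem iso_norm (S : D) (h : star S * S = 1) : ‖S‖ ≤ 1 := by
  have h1 : ‖S‖ * ‖S‖ ≤ 1 := by rw [← CStarRing.norm_star_mul_self, h]; exact norm_one_le'
  nlinarith [norm_nonneg S]

theorem cone_not_locallyTypeI [Nontrivial D] (S₀ S₁ : D) (h00 : star S₀ * S₀ = 1)
    (h11 : star S₁ * S₁ = 1) (h01 : star S₀ * S₁ = 0) (h10 : star S₁ * S₀ = 0) :
    ¬ IsLocallyTypeI (ConeA D) := by
  classical
  intro h
  let g : C(I, ℝ) := ⟨fun t => t, continuous_subtype_val⟩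
  let f₀ := sm g S₀ (Or.inl rfl)
  let f₁ := sm g S₁ (Or.inl rfl)
  obtain ⟨B, hB, hI, hF⟩ := h {f₀, f₁} (1 / 10) (by norm_num)
  obtain ⟨b₀, hb₀, hd₀⟩ := (Metric.infDist_lt_iff ⟨0, B.zero_mem⟩).1 (hF f₀ (by simp))
  obtain ⟨b₁, hb₁, hd₁⟩ := (Metric.infDist_lt_iff ⟨0, B.zero_mem⟩).1 (hF f₁ (by simp))
  let e : B →⋆ₙₐ[ℂ] D :=
    (ev (1 : I)).toNonUnitalStarAlgHom.comp (NonUnitalStarSubalgebraClass.subtype B)
  have key : ∀ (S : D) (b : ConeA D), dist (sm g S (Or.inl rfl)) b < 1 / 10 →
      ‖ev 1 b - S‖ ≤ 1 / 10 := by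
    intro S b hb
    have e1 : ev 1 b - S = ev (1 : I) (b - sm g S (Or.inl rfl)) := by
      rw [map_sub, ev_sm]; simp [g]
    rw [e1]
    refine (NonUnitalStarAlgHom.norm_apply_le (ev (D := D) 1) _).trans ?_
    rw [← dist_eq_norm, dist_comm]
    exact hb.le
  have k0 : ‖e ⟨b₀, hb₀⟩ - S₀‖ ≤ 1 / 10 := key S₀ b₀ hd₀
  have k1 : ‖e ⟨b₁, hb₁⟩ - S₁‖ ≤ 1 / 10 := key S₁ b₁ hd₁
  have n0 := iso_norm S₀ h00
  have n1 := iso_norm S₁ h11
  refine not_typeI e ⟨b₀, hb₀⟩ ⟨b₁, hb₁⟩ ?_ ?_ ?_ ?_ hI
  · rw [← h00]; exact approx_iso _ _ _ _ n0 n0 k0 k0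
  · rw [← h11]; exact approx_iso _ _ _ _ n1 n1 k1 k1
  · have := approx_iso _ _ _ _ n0 n1 k0 k1
    rwa [h01, sub_zero] at this
  · have := approx_iso _ _ _ _ n1 n0 k1 k0
    rwa [h10, sub_zero] at this

/-- explicit completely positive approximation data -/
def HN {H : Type} [NormedAddCommGroup H] [InnerProductSpace ℂ H] [CompleteSpace H]
    (π : D →⋆ₐ[ℂ] (H →L[ℂ] H)) : Prop :=
  ∀ (F : Finset D) (ε : ℝ), 0 < ε → ∃ (X : Type) (_ : Fintype X) (_ : Nonempty X) (η : X → H)
    (s : X → D), Orthonormal ℂ η ∧ ∑ x, s x * star (s x) = 1 ∧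
      ∀ a ∈ F, ‖∑ x, ∑ y, ⟪η x, π a (η y)⟫_ℂ • (s x * star (s y)) - a‖ < ε

theorem coef_sum {H J X : Type} [NormedAddCommGroup H] [InnerProductSpace ℂ H] [Fintype J]
    [DecidableEq J] (η : X → H) (T : J → H →L[ℂ] H) (p q : J × X) :
    ∑ j, ⟪(if j = p.1 then η p.2 else 0), T j (if j = q.1 then η q.2 else 0)⟫_ℂ =
      if p.1 = q.1 then ⟪η p.2, T p.1 (η q.2)⟫_ℂ else 0 := by
  rw [Finset.sum_eq_single p.1]
  · rw [if_pos rfl]
    split_ifs <;> simp
  · intro j _ hj
    rw [if_neg hj, inner_zero_left]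
  · simp

/-- the hypothesis of `nuclear_crit` -/
def NucData (A H : Type) [CStarAlgebra A]
    [NormedAddCommGroup H] [InnerProductSpace ℂ H] [CompleteSpace H] : Prop :=
  ∀ (F : Finset A) (ε : ℝ), 0 < ε → ∃ (J X : Type) (_ : Fintype J) (_ : Fintype X)
      (_ : DecidableEq X) (_ : Nonempty X) (π : J → (A →⋆ₐ[ℂ] (H →L[ℂ] H))) (η : J → X → H)
      (r : X → A), (∀ x y, ∑ j, ⟪η j x, η j y⟫_ℂ = if x = y then 1 else 0) ∧
        ∑ x, r x * star (r x) = 1 ∧ ∀ a ∈ F,
        ‖∑ x, ∑ y, (∑ j, ⟪η j x, π j a (η j y)⟫_ℂ) • (r x * star (r y)) - a‖ < ε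

theorem cone_nuclear {H : Type} [NormedAddCommGroup H] [InnerProductSpace ℂ H] [CompleteSpace H]
    (π : D →⋆ₐ[ℂ] (H →L[ℂ] H)) (hπ : HN π) : NucData (ConeA D) H := by
  classical
  intro F ε hε
  have hev : ∀ᶠ n in atTop, ∀ f ∈ F,
      ‖bernsteinApproximation n f.fn - f.fn‖ < ε / 3 := by
    rw [Filter.eventually_all_finset]
    intro f _
    have := Metric.tendsto_nhds.1 (bernsteinApproximation_uniform f.fn) (ε / 3)
      (by positivity)
    simpa only [dist_eq_norm] using this
  obtain ⟨n, hn⟩ := hev.exists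
  obtain ⟨X, _, ⟨x₀⟩, η, s, hη, hs, happ⟩ := hπ
    ((F ×ˢ (Finset.univ : Finset (Fin (n + 1)))).image fun p => ev (bernstein.z p.2) p.1)
    (ε / 3) (by positivity)
  let d : Fin (n + 1) → X → D := fun j x => if j = 0 then (if x = x₀ then 1 else 0) else s x
  let g : Fin (n + 1) → C(I, ℝ) := fun j => ⟨fun t => √(bernstein n j t), by fun_prop⟩
  have hg : ∀ j t, ((g j t : ℝ) : ℂ) * conj ((g j t : ℝ) : ℂ) = (bernstein n j t : ℝ) := by
    intro j t
    rw [Complex.conj_ofReal, ← Complex.ofReal_mul]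
    congr 1
    exact Real.mul_self_sqrt bernstein_nonneg
  have hgd : ∀ j x, g j 0 = 0 ∨ d j x = 1 ∨ d j x = 0 := by
    intro j x
    by_cases hj : j = 0
    · right
      by_cases hx : x = x₀ <;> simp [d, hj, hx]
    · left
      have : (j : ℕ) ≠ 0 := fun h => hj (Fin.ext h)
      show √(bernstein n j 0) = 0
      rw [bernstein_apply]
      simp [this]
  let r : Fin (n + 1) × X → ConeA D := fun p => sm (g p.1) (d p.1 p.2) (hgd p.1 p.2)
  have hr : ∀ t j x y, ev t (r (j, x) * star (r (j, y))) =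
      ((bernstein n j t : ℝ) : ℂ) • (d j x * star (d j y)) := by
    intro t j x y
    rw [map_mul, map_star, ev_sm, ev_sm, star_smul, smul_mul_smul_comm, ← hg]
    rfl
  have hd1 : ∀ j, ∑ x, d j x * star (d j x) = 1 := by
    intro j
    by_cases hj : j = 0
    · rw [Finset.sum_eq_single x₀]
      · simp [d, hj]
      · intro x _ hx
        simp [d, hj, hx]
      · simp
    · simpa [d, hj] using hs
  have hd2 : ∀ f ∈ F, ∀ j, ‖∑ x, ∑ y, ⟪η x, π (ev (bernstein.z j) f) (η y)⟫_ℂ •
      (d j x * star (d j y)) - ev (bernstein.z j) f‖ ≤ ε / 3 := by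
    intro f hf j
    by_cases hj : j = 0
    · obtain ⟨c, hc⟩ := f.mem
      have e1 : ev (bernstein.z j) f = c • (1 : D) := by
        rw [hj, bernstein.z_zero, ev_apply, hc]
      rw [e1, Finset.sum_eq_single x₀, Finset.sum_eq_single x₀]
      · have : ⟪η x₀, η x₀⟫_ℂ = 1 := by rw [orthonormal_iff_ite.1 hη, if_pos rfl]
        simp only [d, hj, if_true, map_smul, map_one, ContinuousLinearMap.smul_apply,
          ContinuousLinearMap.one_apply, inner_smul_right, this]
        simp
        positivity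
      · intro x _ hx
        simp [d, hj, hx]
      · simp
      · intro x _ hx
        simp [d, hj, hx]
      · simp
    · have := happ (ev (bernstein.z j) f) (Finset.mem_image.2 ⟨(f, j), by simp [hf], rfl⟩)
      simpa only [d, if_neg hj] using this.le
  refine ⟨Fin (n + 1), Fin (n + 1) × X, inferInstance, inferInstance, inferInstance,
    ⟨(0, x₀)⟩, fun j => π.comp (ev (bernstein.z j)),
    fun j p => if j = p.1 then η p.2 else 0, r, fun p q => ?_, ?_, fun f hf => ?_⟩
  · have := coef_sum η (fun _ : Fin (n + 1) => (1 : H →L[ℂ] H)) p q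
    simp only [ContinuousLinearMap.one_apply] at this
    rw [this, orthonormal_iff_ite.1 hη]
    by_cases h1 : p.1 = q.1 <;> by_cases h2 : p.2 = q.2 <;> simp [h1, h2, Prod.ext_iff]
  · refine ev_ext fun t => ?_
    rw [map_sum, map_one, Fintype.sum_prod_type]
    simp_rw [hr, ← Finset.smul_sum, hd1]
    rw [← Finset.sum_smul, ← Complex.ofReal_sum, bernstein.probability]
    simp
  · refine lt_of_le_of_lt (cone_norm_le _ (c := ε / 3 + ε / 3) (by positivity) fun t => ?_)
      (by linarith)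
    have e1 : ev t (∑ p : Fin (n + 1) × X, ∑ q : Fin (n + 1) × X,
        (∑ j, ⟪(if j = p.1 then η p.2 else 0),
          (π.comp (ev (bernstein.z j))) f (if j = q.1 then η q.2 else 0)⟫_ℂ) •
          (r p * star (r q))) = ∑ j : Fin (n + 1), ((bernstein n j t : ℝ) : ℂ) •
          ∑ x, ∑ y, ⟪η x, π (ev (bernstein.z j) f) (η y)⟫_ℂ • (d j x * star (d j y)) := by
      rw [map_sum, Fintype.sum_prod_type]
      refine Finset.sum_congr rfl fun j _ => ?_
      rw [Finset.smul_sum]
      refine Finset.sum_congr rfl fun x _ => ?_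
      rw [map_sum, Fintype.sum_prod_type, Finset.sum_eq_single j, Finset.smul_sum]
      · refine Finset.sum_congr rfl fun y _ => ?_
        rw [coef_sum η (fun j => (π.comp (ev (bernstein.z j))) f), if_pos rfl, map_smul, hr,
          smul_comm]
        rfl
      · intro j' _ hj'
        refine Finset.sum_eq_zero fun y _ => ?_
        rw [coef_sum η (fun j => (π.comp (ev (bernstein.z j))) f), if_neg (Ne.symm hj'),
          zero_smul, map_zero]
      · simp
    rw [map_sub, e1]
    have e2 : ‖bernsteinApproximation n f.fn t - ev t f‖ ≤ ε / 3 :=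
      ((bernsteinApproximation n f.fn - f.fn).norm_coe_le_norm t).trans
        (hn f hf).le
    refine (norm_sub_le_norm_sub_add_norm_sub _ (bernsteinApproximation n f.fn t) _).trans
      (add_le_add ?_ e2)
    rw [bernsteinApproximation.apply, ← Finset.sum_sub_distrib]
    refine (norm_sum_le _ _).trans ?_
    calc _ ≤ ∑ j : Fin (n + 1), bernstein n j t * (ε / 3) := by
          refine Finset.sum_le_sum fun j _ => ?_
          rw [Complex.coe_smul, ← smul_sub, norm_smul, Real.norm_of_nonneg bernstein_nonneg]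
          exact mul_le_mul_of_nonneg_left (hd2 f hf j) bernstein_nonneg
      _ = ε / 3 := by rw [← Finset.sum_mul, bernstein.probability, one_mul]

end Pool.Agent.H562Z.Cone
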