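import Mathlib

/-!
# Type I, nuclear, stably finite C*-algebras: definitions
-/

set_option autoImplicit false

namespace Pool.Agent.H562Z.Cone

open scoped CStarAlgebra ComplexOrder

/-- A representation `π` of `B` on the Hilbert space `H` is irreducible: it is not the zero
representation, and the only closed subspaces of `H` invariant under `π(B)` are `0` and `H`. -/
def IsIrreducible {B H : Type} [NonUnitalCStarAlgebra B] [NormedAddCommGroup H]
    [InnerProductSpace ℂ H] [CompleteSpace H] (π : B →⋆ₙₐ[ℂ] (H →L[ℂ] H)) : Prop :=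
  (∃ b : B, π b ≠ 0) ∧ ∀ K : Submodule ℂ H, IsClosed (K : Set H) →
    (∀ (b : B) (x : H), x ∈ K → π b x ∈ K) → K = ⊥ ∨ K = ⊤

/-- `B` is type I: the image of every irreducible representation contains all compact
operators. -/
def IsTypeI (B : Type) [NonUnitalCStarAlgebra B] : Prop :=
  ∀ (H : Type) [NormedAddCommGroup H] [InnerProductSpace ℂ H] [CompleteSpace H]
    (π : B →⋆ₙₐ[ℂ] (H →L[ℂ] H)), IsIrreducible π →
    ∀ T : H →L[ℂ] H, IsCompactOperator T → ∃ b : B, π b = T

/-- `A` is nuclear (completely positive approximation property): the identity map of `A` is a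
point-norm limit of maps `A → M_k(ℂ) → A`, both factors completely positive contractions. -/
def IsNuclear (A : Type) [NonUnitalCStarAlgebra A] [PartialOrder A] [StarOrderedRing A] : Prop :=
  ∀ (F : Finset A) (ε : ℝ), 0 < ε → ∃ (k : ℕ) (φ : A →CP CStarMatrix (Fin k) (Fin k) ℂ)
    (ψ : CStarMatrix (Fin k) (Fin k) ℂ →CP A),
    (∀ x, ‖φ x‖ ≤ ‖x‖) ∧ (∀ y, ‖ψ y‖ ≤ ‖y‖) ∧ ∀ x ∈ F, ‖ψ (φ x) - x‖ < ε

/-- The unital C*-algebra `A` is stably finite: in every matrix algebra `M_n(A)`,
`v* v = 1` implies `v v* = 1`. -/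
def IsStablyFinite (A : Type) [CStarAlgebra A] : Prop :=
  ∀ (n : ℕ) (v : Matrix (Fin n) (Fin n) A), star v * v = 1 → v * star v = 1

/-- `A` is locally approximable by type I C*-algebras: every finite set is within any `ε > 0` of
a type I C*-subalgebra (a closed star-subalgebra, not necessarily containing a unit). -/
def IsLocallyTypeI (A : Type) [NonUnitalCStarAlgebra A] : Prop :=
  ∀ (F : Finset A) (ε : ℝ), 0 < ε → ∃ (B : NonUnitalStarSubalgebra ℂ A)
    (_ : IsClosed (B : Set A)), IsTypeI B ∧ ∀ x ∈ F, Metric.infDist x (B : Set A) < ε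

end Pool.Agent.H562Z.Cone
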