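import Pool.Agent.H562Z.Cone.Words

/-!
# A concrete Cuntz pair, and the counterexample
-/

set_option autoImplicit false
set_option linter.unusedSectionVars false
set_option linter.style.haveILetI false
set_option linter.unusedSimpArgs false
set_option linter.deprecated false

namespace Pool.Agent.H562Z.Cone

open scoped CStarAlgebra ComplexOrder InnerProductSpace ComplexConjugate Topology

/-- the Hilbert space -/
abbrev HH : Type := lp (fun _ : ℤ × ℕ => ℂ) 2

/-- its basis -/
noncomputable def bb : HilbertBasis (ℤ × ℕ) ℂ HH := default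

/-- the two shifts of the index set -/
def ff (i : Bool) (p : ℤ × ℕ) : ℤ × ℕ := (p.1 + 1, 2 * p.2 + if i then 1 else 0)

theorem ff_eq (i j : Bool) (p q : ℤ × ℕ) : ff i p = ff j q ↔ i = j ∧ p = q := by
  constructor
  · intro h
    simp only [ff, Prod.ext_iff] at h ⊢
    obtain ⟨h1, h2⟩ := h
    cases i <;> cases j <;> simp at h2 ⊢ <;> omega
  · rintro ⟨rfl, rfl⟩; rfl

theorem ff_surj (p : ℤ × ℕ) : ∃ i q, ff i q = p := by
  rcases Nat.even_or_odd' p.2 with ⟨k, hk | hk⟩
  · exact ⟨false, (p.1 - 1, k), by simp [ff, Prod.ext_iff, hk]⟩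
  · exact ⟨true, (p.1 - 1, k), by simp [ff, Prod.ext_iff, hk]⟩

theorem ff_on (i : Bool) : Orthonormal ℂ (bb ∘ ff i) :=
  bb.orthonormal.comp _ fun p q h => ((ff_eq i i p q).1 h).2

/-- the Cuntz isometries -/
noncomputable def SS (i : Bool) : HH →L[ℂ] HH :=
  (ff_on i).orthogonalFamily.linearIsometry.toContinuousLinearMap.comp
    bb.repr.toLinearIsometry.toContinuousLinearMap

theorem SS_apply (i : Bool) (p : ℤ × ℕ) : SS i (bb p) = bb (ff i p) := by
  classical
  show (ff_on i).orthogonalFamily.linearIsometry (bb.repr (bb p)) = _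
  rw [HilbertBasis.repr_self, OrthogonalFamily.linearIsometry_apply_single]
  simp

theorem bb_dense : Dense (Submodule.span ℂ (Set.range bb) : Set HH) :=
  Submodule.dense_iff_topologicalClosure_eq_top.2 bb.dense_span

theorem op_ext {A B : HH →L[ℂ] HH} (h : ∀ p, A (bb p) = B (bb p)) : A = B :=
  ContinuousLinearMap.ext_on bb_dense (by rintro _ ⟨p, rfl⟩; exact h p)

theorem vec_ext {x y : HH} (h : ∀ p, ⟪bb p, x⟫_ℂ = ⟪bb p, y⟫_ℂ) : x = y := by
  apply bb.repr.injective
  ext p
  rw [HilbertBasis.repr_apply_apply, HilbertBasis.repr_apply_apply, h]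

theorem SS_rel (i j : Bool) : star (SS i) * SS j = if i = j then 1 else 0 := by
  classical
  refine op_ext fun q => vec_ext fun p => ?_
  rw [inner_star_mul, SS_apply, SS_apply, orthonormal_iff_ite.1 bb.orthonormal]
  simp only [ff_eq]
  by_cases hij : i = j
  · simp only [hij, true_and, if_true, ContinuousLinearMap.one_apply]
    rw [orthonormal_iff_ite.1 bb.orthonormal]
  · simp [hij]

theorem SS_sum : ∑ i, SS i * star (SS i) = 1 := by
  refine op_ext fun p => ?_
  obtain ⟨i, q, rfl⟩ := ff_surj p
  have e : (∑ j, SS j * star (SS j)) * SS i = SS i := by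
    rw [Finset.sum_mul, Finset.sum_eq_single i]
    · rw [mul_assoc, SS_rel, if_pos rfl, mul_one]
    · intro j _ hj
      rw [mul_assoc, SS_rel, if_neg hj, mul_zero]
    · simp
  rw [← SS_apply, ContinuousLinearMap.one_apply, ← ContinuousLinearMap.mul_apply, e]

/-- the Cuntz algebra as a subalgebra -/
noncomputable def O2Sub : StarSubalgebra ℂ (HH →L[ℂ] HH) :=
  (StarAlgebra.adjoin ℂ (Set.range SS)).topologicalClosure

/-- the Cuntz algebra -/
def O2 : Type := O2Sub

noncomputable instance : CStarAlgebra O2 :=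
  StarSubalgebra.cstarAlgebra O2Sub (h_closed := StarSubalgebra.isClosed_topologicalClosure _)

/-- the inclusion -/
noncomputable def inc : O2 →⋆ₐ[ℂ] (HH →L[ℂ] HH) where
  toFun f := Subtype.val f
  map_one' := rfl
  map_mul' _ _ := rfl
  map_zero' := rfl
  map_add' _ _ := rfl
  commutes' _ := rfl
  map_star' _ := rfl

theorem inc_inj : Function.Injective inc := fun _ _ h => Subtype.ext h

/-- the generators -/
noncomputable def gen (i : Bool) : O2 :=
  (⟨SS i, StarSubalgebra.le_topologicalClosure _
    (StarAlgebra.subset_adjoin ℂ _ ⟨i, rfl⟩)⟩ : O2Sub)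

theorem inc_gen (i : Bool) : inc (gen i) = SS i := rfl

theorem word_vec (k : ℕ) (μ : W k) : ∃ y, inc (sw gen k μ) (bb (0, 0)) = bb ((k : ℤ), y) := by
  induction k with
  | zero => exact ⟨0, rfl⟩
  | succ k ih =>
    obtain ⟨i, μ⟩ := μ
    obtain ⟨y, hy⟩ := ih μ
    refine ⟨2 * y + if i then 1 else 0, ?_⟩
    rw [sw_succ, map_mul, ContinuousLinearMap.mul_apply, hy, inc_gen, SS_apply]
    rfl

theorem closed_top (L : StarSubalgebra ℂ O2) (hL : IsClosed (L : Set O2)) (h : ∀ i, gen i ∈ L)
    (d : O2) : d ∈ L := by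
  have hc : IsClosed ((L.map inc : StarSubalgebra ℂ (HH →L[ℂ] HH)) : Set (HH →L[ℂ] HH)) := by
    have : Topology.IsClosedEmbedding (fun x : O2Sub => (x : HH →L[ℂ] HH)) :=
      (StarSubalgebra.isClosed_topologicalClosure _).isClosedEmbedding_subtypeVal
    exact this.isClosedMap _ hL
  have hle : O2Sub ≤ L.map inc := by
    refine StarSubalgebra.topologicalClosure_minimal ?_ hc
    refine StarAlgebra.adjoin_le ?_
    rintro _ ⟨i, rfl⟩
    exact ⟨gen i, h i, rfl⟩
  obtain ⟨x, hx, hxd⟩ := hle (Subtype.property d)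
  have : x = d := inc_inj hxd
  exact this ▸ hx

theorem cz : Cz gen inc (bb (0, 0)) where
  rel i j := by
    apply inc_inj
    rw [map_mul, map_star, inc_gen, inc_gen, SS_rel]
    split_ifs <;> simp
  sum := by
    apply inc_inj
    rw [map_sum, map_one, ← SS_sum]
    rfl
  unit := by
    classical
    rw [orthonormal_iff_ite.1 bb.orthonormal, if_pos rfl]
  orth l ν := by
    classical
    obtain ⟨y, hy⟩ := word_vec (l + 1) ν
    rw [hy, orthonormal_iff_ite.1 bb.orthonormal, if_neg]
    simp only [Prod.ext_iff]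
    omega
  gen G hG h1 hS hS' := by
    let L : StarSubalgebra ℂ O2 :=
      { carrier := {d | ∀ a ∈ G, d * a ∈ G ∧ star d * a ∈ G}
        mul_mem' := fun {x y} hx hy a ha => by
          rw [star_mul, mul_assoc, mul_assoc]
          exact ⟨(hx _ (hy a ha).1).1, (hy _ (hx a ha).2).2⟩
        add_mem' := fun {x y} hx hy a ha => by
          rw [star_add, add_mul, add_mul]
          exact ⟨G.add_mem (hx a ha).1 (hy a ha).1, G.add_mem (hx a ha).2 (hy a ha).2⟩
        algebraMap_mem' := fun c a ha => by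
          rw [Algebra.algebraMap_eq_smul_one, star_smul, star_one, smul_mul_assoc, smul_mul_assoc,
            one_mul]
          exact ⟨G.smul_mem _ ha, G.smul_mem _ ha⟩
        star_mem' := fun {x} hx a ha => by
          rw [star_star]
          exact ⟨(hx a ha).2, (hx a ha).1⟩ }
    have hL : IsClosed (L : Set O2) := by
      have : (L : Set O2) = ⋂ a ∈ G, ((fun d => d * a) ⁻¹' G ∩ (fun d => star d * a) ⁻¹' G) := by
        ext d
        simp only [Set.mem_iInter]
        rfl
      rw [this]
      refine isClosed_biInter fun a _ => IsClosed.inter (hG.preimage ?_) (hG.preimage ?_)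
      · fun_prop
      · fun_prop
    rw [eq_top_iff]
    intro d _
    have := (closed_top L hL (fun i a ha => ⟨hS i a ha, hS' i a ha⟩) d 1 h1).1
    rwa [mul_one] at this

instance : Nontrivial O2 := ⟨⟨1, 0, fun h => by
  have h1 := cz.unit
  have h2 : inc 1 (bb (0, 0)) = bb (0, 0) := by rw [map_one]; rfl
  rw [h, map_zero] at h2
  rw [← h2] at h1
  simp at h1⟩⟩

theorem main : ∃ (A : Type) (_ : CStarAlgebra A) (_ : PartialOrder A) (_ : StarOrderedRing A),
    TopologicalSpace.SeparableSpace A ∧ IsNuclear A ∧ IsStablyFinite A ∧ ¬ IsLocallyTypeI A := by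
  haveI := cz.separable
  have key : ∀ (A : Type) [CStarAlgebra A], TopologicalSpace.SeparableSpace A → NucData A HH →
      IsStablyFinite A → ¬ IsLocallyTypeI A →
      ∃ (A : Type) (_ : CStarAlgebra A) (_ : PartialOrder A) (_ : StarOrderedRing A),
        TopologicalSpace.SeparableSpace A ∧ IsNuclear A ∧ IsStablyFinite A ∧
          ¬ IsLocallyTypeI A := by
    intro A _ h1 h2 h3 h4
    letI : PartialOrder A := CStarAlgebra.spectralOrder A
    haveI : StarOrderedRing A := CStarAlgebra.spectralOrderedRing A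
    exact ⟨A, inferInstance, inferInstance, inferInstance, h1, nuclear_crit h2, h3, h4⟩
  refine key (ConeA O2) cone_separable (cone_nuclear inc cz.hn) cone_stablyFinite
    (cone_not_locallyTypeI (gen false) (gen true) ?_ ?_ ?_ ?_)
  all_goals (rw [cz.rel]; simp)

end Pool.Agent.H562Z.Cone
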