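import Pool.Agent.H562Z.Cone.CP

/-!
# Irreducible representations missing the compact operators
-/

set_option autoImplicit false
set_option linter.unusedSectionVars false
set_option linter.style.haveILetI false
set_option linter.unusedSimpArgs false
set_option linter.deprecated false

namespace Pool.Agent.H562Z.Cone

open scoped CStarAlgebra ComplexOrder InnerProductSpace ComplexConjugate

section States

variable {B : Type} [CStarAlgebra B] [PartialOrder B] [StarOrderedRing B] [Nontrivial B]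

theorem state_im (l : B →L[ℂ] ℂ) (hl : ‖l‖ ≤ 1) (hl1 : l 1 = 1) (a : B) (ha : IsSelfAdjoint a) :
    (l a).im = 0 := by
  have key : ∀ R : ℝ, (l a).re ^ 2 + ((l a).im - R) ^ 2 ≤ ‖a‖ ^ 2 + R ^ 2 := by
    intro R
    have e1 : l (a - ((R : ℂ) * Complex.I) • 1) = l a - (R : ℂ) * Complex.I := by
      rw [map_sub, map_smul, hl1, smul_eq_mul, mul_one]
    have e2 : ‖l (a - ((R : ℂ) * Complex.I) • 1)‖ ≤ ‖a - ((R : ℂ) * Complex.I) • 1‖ := by
      simpa using l.le_of_opNorm_le hl (a - ((R : ℂ) * Complex.I) • 1)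
    have e3 : ‖a - ((R : ℂ) * Complex.I) • (1 : B)‖ ^ 2 ≤ ‖a‖ ^ 2 + R ^ 2 := by
      have h1 : star (a - ((R : ℂ) * Complex.I) • (1 : B)) * (a - ((R : ℂ) * Complex.I) • (1 : B))
          = a * a + ((R : ℂ) ^ 2) • 1 := by
        rw [star_sub, star_smul, ha.star_eq, star_one]
        have h2 : star ((R : ℂ) * Complex.I) = -((R : ℂ) * Complex.I) := by
          simp
        rw [h2, neg_smul, sub_neg_eq_add, add_mul, mul_sub, mul_sub, smul_mul_smul_comm,
          smul_mul_assoc, one_mul, mul_smul_comm, mul_one, mul_one]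
        have h3 : (R : ℂ) * Complex.I * ((R : ℂ) * Complex.I) = -((R : ℂ) ^ 2) := by
          rw [mul_mul_mul_comm, Complex.I_mul_I]; ring
        rw [h3, neg_smul]
        abel
      rw [pow_two, ← CStarRing.norm_star_mul_self, h1]
      calc ‖a * a + ((R : ℂ) ^ 2) • (1 : B)‖ ≤ ‖a * a‖ + ‖((R : ℂ) ^ 2) • (1 : B)‖ :=
            norm_add_le _ _
        _ ≤ ‖a‖ * ‖a‖ + R ^ 2 := by
            refine add_le_add (norm_mul_le _ _) ?_
            rw [norm_smul, norm_one, mul_one, norm_pow, Complex.norm_real, Real.norm_eq_abs, sq_abs]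
        _ = ‖a‖ ^ 2 + R ^ 2 := by ring
    have e4 : ‖l a - (R : ℂ) * Complex.I‖ ^ 2 = (l a).re ^ 2 + ((l a).im - R) ^ 2 := by
      rw [← Complex.normSq_eq_norm_sq, Complex.normSq_apply]
      simp
      ring
    rw [← e4, ← e1]
    calc ‖l (a - ((R : ℂ) * Complex.I) • 1)‖ ^ 2 ≤ ‖a - ((R : ℂ) * Complex.I) • (1 : B)‖ ^ 2 := by
          gcongr
      _ ≤ _ := e3
  by_contra hne
  set y := (l a).im with hy
  have h1 := key (-(‖a‖ ^ 2 + 1) / (2 * y))
  have h2 : (y - -(‖a‖ ^ 2 + 1) / (2 * y)) ^ 2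
      = y ^ 2 + (‖a‖ ^ 2 + 1) + (-(‖a‖ ^ 2 + 1) / (2 * y)) ^ 2 := by
    field_simp
    ring
  rw [h2] at h1
  nlinarith [sq_nonneg (l a).re, sq_nonneg y]

theorem state_re (l : B →L[ℂ] ℂ) (hl : ‖l‖ ≤ 1) (hl1 : l 1 = 1) (a : B) (ha : 0 ≤ a) :
    0 ≤ (l a).re := by
  have h0 : IsSelfAdjoint a := IsSelfAdjoint.of_nonneg ha
  have h1 : a ≤ algebraMap ℝ B ‖a‖ := h0.le_algebraMap_norm_self
  have h2 : 0 ≤ algebraMap ℝ B ‖a‖ - a := sub_nonneg.mpr h1
  have h3 : algebraMap ℝ B ‖a‖ - a ≤ algebraMap ℝ B ‖a‖ := sub_le_self _ ha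
  have h4 : ‖algebraMap ℝ B ‖a‖ - a‖ ≤ ‖a‖ := by
    rw [CStarAlgebra.norm_le_iff_le_algebraMap _ (norm_nonneg _) h2]
    exact h3
  have h5 : ‖l (algebraMap ℝ B ‖a‖ - a)‖ ≤ ‖a‖ := by
    have := l.le_of_opNorm_le hl (algebraMap ℝ B ‖a‖ - a)
    rw [one_mul] at this
    exact this.trans h4
  have h6 : l (algebraMap ℝ B ‖a‖ - a) = (‖a‖ : ℂ) - l a := by
    rw [map_sub]
    congr 1
    rw [Algebra.algebraMap_eq_smul_one, ← Complex.coe_smul, map_smul, hl1, smul_eq_mul, mul_one]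
  rw [h6] at h5
  have h7 := (Complex.re_le_norm ((‖a‖ : ℂ) - l a)).trans h5
  simp at h7
  linarith

end States

theorem exists_gns {C : Type} [CStarAlgebra C] [Nontrivial C] (l : C →L[ℂ] ℂ) (hl : ‖l‖ ≤ 1)
    (hl1 : l 1 = 1) : ∃ (H : Type) (_ : NormedAddCommGroup H)
    (_ : InnerProductSpace ℂ H) (_ : CompleteSpace H) (ρ : C →⋆ₐ[ℂ] (H →L[ℂ] H)) (Ω : H),
    (∀ a b, ⟪ρ a Ω, ρ b Ω⟫_ℂ = l (star a * b)) ∧ Dense (Set.range fun a => ρ a Ω) := by
  let _ : PartialOrder C := CStarAlgebra.spectralOrder C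
  let _ : StarOrderedRing C := CStarAlgebra.spectralOrderedRing C
  let f : C →ₚ[ℂ] ℂ := PositiveLinearMap.mk₀ l.toLinearMap (fun x hx => by
    rw [Complex.le_def]
    exact ⟨state_re l hl hl1 x hx, (state_im l hl hl1 x (IsSelfAdjoint.of_nonneg hx)).symm⟩)
  have hρ : ∀ a : C, f.gnsStarAlgHom a ((f.toPreGNS 1 : f.PreGNS) : f.GNS) =
      ((f.toPreGNS a : f.PreGNS) : f.GNS) := by
    intro a
    have h : f.gnsStarAlgHom a ((f.toPreGNS 1 : f.PreGNS) : f.GNS) =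
      ((f.leftMulMapPreGNS a (f.toPreGNS 1) : f.PreGNS) : f.GNS) :=
      f.gnsNonUnitalStarAlgHom_apply_coe (a := a) (b := f.toPreGNS 1)
    rw [h]
    congr 1
    show f.toPreGNS (a * 1) = _
    rw [mul_one]
  refine ⟨f.GNS, inferInstance, inferInstance, inferInstance, f.gnsStarAlgHom,
    ((f.toPreGNS 1 : f.PreGNS) : f.GNS), ?_, ?_⟩
  · intro a b
    rw [hρ, hρ, UniformSpace.Completion.inner_coe, f.preGNS_inner_def]
    rfl
  · have : (Set.range fun a => f.gnsStarAlgHom a ((f.toPreGNS 1 : f.PreGNS) : f.GNS)) =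
        Set.range (fun x : f.PreGNS => (x : f.GNS)) := by
      ext x
      constructor
      · rintro ⟨a, rfl⟩
        exact ⟨f.toPreGNS a, (hρ a).symm⟩
      · rintro ⟨y, rfl⟩
        exact ⟨f.ofPreGNS y, hρ _⟩
    rw [this]
    exact UniformSpace.Completion.denseRange_coe

/-- proper two-sided ideals -/
def PI (C : Type) [CStarAlgebra C] : Set (Submodule ℂ C) :=
  {M | (∀ x y, y ∈ M → x * y ∈ M) ∧ (∀ x y, x ∈ M → x * y ∈ M) ∧ (1 : C) ∉ M}

theorem exists_max (C : Type) [CStarAlgebra C] [Nontrivial C] :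
    ∃ M, Maximal (· ∈ PI C) M := by
  have h0 : (⊥ : Submodule ℂ C) ∈ PI C := by
    refine ⟨fun x y hy => ?_, fun x y hx => ?_, ?_⟩
    · rw [Submodule.mem_bot] at hy ⊢; rw [hy, mul_zero]
    · rw [Submodule.mem_bot] at hx ⊢; rw [hx, zero_mul]
    · rw [Submodule.mem_bot]; exact one_ne_zero
  obtain ⟨M, -, hM⟩ := zorn_le_nonempty₀ (PI C) (fun c hc hch y hy => by
    have hm : ∀ z, z ∈ sSup c ↔ ∃ N ∈ c, z ∈ N := fun z =>
      Submodule.mem_sSup_of_directed ⟨y, hy⟩ hch.directedOn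
    refine ⟨sSup c, ⟨fun x y hy => ?_, fun x y hx => ?_, fun h => ?_⟩, fun z hz => le_sSup hz⟩
    · obtain ⟨N, hN, h⟩ := (hm _).1 hy
      exact (hm _).2 ⟨N, hN, (hc hN).1 x y h⟩
    · obtain ⟨N, hN, h⟩ := (hm _).1 hx
      exact (hm _).2 ⟨N, hN, (hc hN).2.1 x y h⟩
    · obtain ⟨N, hN, h⟩ := (hm _).1 h
      exact (hc hN).2.2 h) ⊥ h0
  exact ⟨M, hM⟩

theorem exists_state {C : Type} [CStarAlgebra C] [Nontrivial C] (M : Submodule ℂ C)
    (hM : M ∈ PI C) : ∃ l : C →L[ℂ] ℂ, ‖l‖ ≤ 1 ∧ l 1 = 1 ∧ ∀ x ∈ M, l x = 0 := by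
  obtain ⟨g, hg, hg1⟩ := exists_dual_vector'' ℂ (M.mkQ (1 : C))
  have hq : ∀ x : C, ‖M.mkQ x‖ ≤ 1 * ‖x‖ := fun x => by
    rw [one_mul]; exact Submodule.Quotient.norm_mk_le M x
  let q : C →L[ℂ] (C ⧸ M) := M.mkQ.mkContinuous 1 hq
  have hn : ‖M.mkQ (1 : C)‖ = 1 := by
    refine le_antisymm (by simpa using hq 1) ?_
    by_contra hlt
    push Not at hlt
    obtain ⟨m, hm, hm'⟩ := Submodule.Quotient.norm_mk_lt (M.mkQ (1 : C))
      (ε := 1 - ‖M.mkQ (1 : C)‖) (by linarith)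
    have h1 : ‖m‖ < 1 := by linarith
    have h2 : (1 : C) - m ∈ M := by
      rw [← Submodule.Quotient.eq, hm]; rfl
    obtain ⟨u, hu⟩ := isUnit_one_sub_of_norm_lt_one h1
    have h3 := hM.1 (↑u⁻¹ : C) _ h2
    rw [← hu, Units.inv_mul] at h3
    exact hM.2.2 h3
  refine ⟨g.comp q, ?_, ?_, fun x hx => ?_⟩
  · refine ContinuousLinearMap.opNorm_le_bound _ zero_le_one fun x => ?_
    have := g.le_of_opNorm_le hg (q x)
    rw [one_mul] at this
    exact this.trans (hq x)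
  · show g (M.mkQ 1) = 1
    rw [hg1, hn]; simp
  · show g (M.mkQ x) = 0
    rw [Submodule.mkQ_apply, (Submodule.Quotient.mk_eq_zero M).2 hx, map_zero]

theorem exists_pure {C : Type} [CStarAlgebra C] [Nontrivial C] (M : Submodule ℂ C)
    (hM : M ∈ PI C) : ∃ l : C →L[ℂ] ℂ, (‖l‖ ≤ 1 ∧ l 1 = 1 ∧ ∀ x ∈ M, l x = 0) ∧
      ∀ (g h : C →L[ℂ] ℂ) (α β : ℝ), 0 < α → 0 < β → α + β = 1 →
        (‖g‖ ≤ 1 ∧ g 1 = 1 ∧ ∀ x ∈ M, g x = 0) → (‖h‖ ≤ 1 ∧ h 1 = 1 ∧ ∀ x ∈ M, h x = 0) →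
        (∀ x, l x = α * g x + β * h x) → g = l := by
  obtain ⟨l₀, h₀⟩ := exists_state M hM
  let S : Set (WeakDual ℂ C) := WeakDual.toStrongDual ⁻¹' Metric.closedBall 0 1 ∩
    ({g | g 1 = 1} ∩ ⋂ x ∈ M, {g | g x = 0})
  have hS : ∀ g : C →L[ℂ] ℂ, StrongDual.toWeakDual g ∈ S ↔
      (‖g‖ ≤ 1 ∧ g 1 = 1 ∧ ∀ x ∈ M, g x = 0) := by
    intro g
    simp only [S, Set.mem_inter_iff, Set.mem_preimage, Set.mem_iInter, Set.mem_setOf_eq]
    refine and_congr ?_ Iff.rfl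
    exact mem_closedBall_zero_iff (E := StrongDual ℂ C) (a := g)
  have hc : IsCompact S := by
    refine (WeakDual.isCompact_closedBall (𝕜 := ℂ) (0 : StrongDual ℂ C) 1).inter_right ?_
    refine IsClosed.inter ?_ (isClosed_biInter fun x _ => ?_)
    · exact isClosed_eq (WeakDual.eval_continuous (1 : C)) continuous_const
    · exact isClosed_eq (WeakDual.eval_continuous x) continuous_const
  haveI : IsScalarTower ℝ ℂ (WeakDual ℂ C) := inferInstanceAs (IsScalarTower ℝ ℂ (C →L[ℂ] ℂ))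
  have : LocallyConvexSpace ℝ (WeakDual ℂ C) := (WeakDual.withSeminorms ℂ C).toLocallyConvexSpace
  obtain ⟨e, he⟩ := hc.extremePoints_nonempty ⟨_, (hS l₀).2 h₀⟩
  rw [mem_extremePoints_iff_left] at he
  refine ⟨WeakDual.toStrongDual e, (hS _).1 he.1, fun g h α β hα hβ hαβ hg hh hl => ?_⟩
  have := he.2 _ ((hS g).2 hg) _ ((hS h).2 hh) ⟨α, β, hα, hβ, hαβ, by
    apply DFunLike.ext
    intro x
    have := hl x
    exact this.symm⟩
  rw [← this]
  rfl

section Vec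

variable {C H : Type} [CStarAlgebra C] [NormedAddCommGroup H] [InnerProductSpace ℂ H]
  [CompleteSpace H]

/-- normalised vector functional -/
noncomputable def vecF (ρ : C →⋆ₐ[ℂ] (H →L[ℂ] H)) (u : H) : C →L[ℂ] ℂ :=
  LinearMap.mkContinuous
    { toFun := fun a => ((‖u‖ ^ 2 : ℝ) : ℂ)⁻¹ * ⟪u, ρ a u⟫_ℂ
      map_add' := fun a b => by simp [mul_add]
      map_smul' := fun c a => by simp; ring } 1 (fun a => by
      by_cases hu : u = 0
      · simp [hu]
      have hp : 0 < ‖u‖ := norm_pos_iff.2 hu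
      have h1 : ‖⟪u, ρ a u⟫_ℂ‖ ≤ ‖u‖ * (‖a‖ * ‖u‖) := by
        refine (norm_inner_le_norm _ _).trans (mul_le_mul_of_nonneg_left ?_ hp.le)
        exact ((ρ a).le_opNorm u).trans
          (mul_le_mul_of_nonneg_right (NonUnitalStarAlgHom.norm_apply_le ρ a) hp.le)
      show ‖((‖u‖ ^ 2 : ℝ) : ℂ)⁻¹ * ⟪u, ρ a u⟫_ℂ‖ ≤ _
      rw [norm_mul, norm_inv, Complex.norm_real, Real.norm_of_nonneg (by positivity),
        inv_mul_le_iff₀ (by positivity)]
      nlinarith)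

theorem vecF_apply (ρ : C →⋆ₐ[ℂ] (H →L[ℂ] H)) (u : H) (a : C) :
    vecF ρ u a = ((‖u‖ ^ 2 : ℝ) : ℂ)⁻¹ * ⟪u, ρ a u⟫_ℂ := rfl

theorem vecF_norm (ρ : C →⋆ₐ[ℂ] (H →L[ℂ] H)) (u : H) : ‖vecF ρ u‖ ≤ 1 :=
  LinearMap.mkContinuous_norm_le _ zero_le_one _

theorem vecF_one (ρ : C →⋆ₐ[ℂ] (H →L[ℂ] H)) (u : H) (hu : u ≠ 0) : vecF ρ u 1 = 1 := by
  rw [vecF_apply, map_one, ContinuousLinearMap.one_apply, inner_self_eq_norm_sq_to_K]
  have hp : (‖u‖ : ℂ) ≠ 0 := by exact_mod_cast norm_ne_zero_iff.2 hu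
  push_cast
  exact inv_mul_cancel₀ (pow_ne_zero 2 hp)

theorem mul_vecF (ρ : C →⋆ₐ[ℂ] (H →L[ℂ] H)) (u : H) (hu : u ≠ 0) (a : C) :
    ((‖u‖ ^ 2 : ℝ) : ℂ) * vecF ρ u a = ⟪u, ρ a u⟫_ℂ := by
  rw [vecF_apply, ← mul_assoc, mul_inv_cancel₀, one_mul]
  exact_mod_cast pow_ne_zero 2 (norm_ne_zero_iff.2 hu)

theorem eq_zero_of_dense {s : Set H} (hs : Dense s) (v : H) (h : ∀ x ∈ s, ⟪v, x⟫_ℂ = 0) :
    v = 0 := by
  have : ∀ x, ⟪v, x⟫_ℂ = 0 := fun x =>
    hs.induction (P := fun x => ⟪v, x⟫_ℂ = 0) h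
      (isClosed_eq (continuous_const.inner continuous_id) continuous_const) x
  exact inner_self_eq_zero.1 (this v)

theorem rho_inner (ρ : C →⋆ₐ[ℂ] (H →L[ℂ] H)) (a : C) (x y : H) :
    ⟪x, ρ a y⟫_ℂ = ⟪ρ (star a) x, y⟫_ℂ := by
  rw [map_star, ContinuousLinearMap.star_eq_adjoint, ContinuousLinearMap.adjoint_inner_left]

end Vec

theorem fin_contra {H : Type} [NormedAddCommGroup H] [InnerProductSpace ℂ H] [CompleteSpace H]
    [FiniteDimensional ℂ H] (T₀ T₁ : H →L[ℂ] H) (h00 : ‖star T₀ * T₀ - 1‖ ≤ 1 / 4)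
    (h11 : ‖star T₁ * T₁ - 1‖ ≤ 1 / 4) (h01 : ‖star T₀ * T₁‖ ≤ 1 / 4)
    (h10 : ‖star T₁ * T₀‖ ≤ 1 / 4) : Subsingleton H := by
  let L : H × H →ₗ[ℂ] H := LinearMap.coprod (T₀ : H →ₗ[ℂ] H) (T₁ : H →ₗ[ℂ] H)
  have key : ∀ (S T : H →L[ℂ] H) (x y : H), ‖star S * S - 1‖ ≤ 1 / 4 → ‖star S * T‖ ≤ 1 / 4 →
      S x + T y = 0 → ‖x‖ ≤ (‖x‖ + ‖y‖) / 4 := by
    intro S T x y h1 h2 h
    have e : x = -((star S * S - 1) x + (star S * T) y) := by
      have : (star S) (S x + T y) = 0 := by rw [h, map_zero]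
      rw [map_add] at this
      simp only [ContinuousLinearMap.sub_apply, ContinuousLinearMap.mul_apply,
        ContinuousLinearMap.one_apply]
      rw [sub_add_eq_add_sub, this]
      simp
    have b1 := (star S * S - 1).le_of_opNorm_le h1 x
    have b2 := (star S * T).le_of_opNorm_le h2 y
    calc ‖x‖ = ‖(star S * S - 1) x + (star S * T) y‖ := by
          conv_lhs => rw [e]
          rw [norm_neg]
      _ ≤ _ := norm_add_le _ _
      _ ≤ _ := by linarith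
  have hinj : Function.Injective L := by
    rw [injective_iff_map_eq_zero]
    rintro ⟨x, y⟩ hxy
    have h : T₀ x + T₁ y = 0 := hxy
    have a1 := key T₀ T₁ x y h00 h01 h
    have a2 := key T₁ T₀ y x h11 h10 (by rw [add_comm]; exact h)
    have n1 := norm_nonneg x
    have n2 := norm_nonneg y
    have x0 : x = 0 := norm_eq_zero.1 (by linarith)
    have y0 : y = 0 := norm_eq_zero.1 (by linarith)
    rw [x0, y0]; rfl
  have := LinearMap.finrank_le_finrank_of_injective hinj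
  rw [Module.finrank_prod] at this
  exact (Module.finrank_zero_iff (R := ℂ)).1 (by omega)

/-- A unital C*-algebra with two approximate isometries with approximately orthogonal ranges has
an irreducible representation whose image misses a compact operator. -/
theorem exists_irr {C : Type} [CStarAlgebra C] [Nontrivial C] (T₀ T₁ : C)
    (h00 : ‖star T₀ * T₀ - 1‖ ≤ 1 / 4) (h11 : ‖star T₁ * T₁ - 1‖ ≤ 1 / 4)
    (h01 : ‖star T₀ * T₁‖ ≤ 1 / 4) (h10 : ‖star T₁ * T₀‖ ≤ 1 / 4) :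
    ∃ (H : Type) (_ : NormedAddCommGroup H) (_ : InnerProductSpace ℂ H) (_ : CompleteSpace H)
      (ρ : C →⋆ₐ[ℂ] (H →L[ℂ] H)), ρ T₀ ≠ 0 ∧
      (∀ K : Submodule ℂ H, IsClosed (K : Set H) → (∀ (c : C) (x : H), x ∈ K → ρ c x ∈ K) →
        K = ⊥ ∨ K = ⊤) ∧ ∃ T : H →L[ℂ] H, IsCompactOperator T ∧ ∀ c, ρ c ≠ T := by
  obtain ⟨M, hM⟩ := exists_max C
  obtain ⟨l, ⟨hl, hl1, hlM⟩, hext⟩ := exists_pure M hM.1
  obtain ⟨H, _, _, _, ρ, Ω, hin, hd⟩ := exists_gns l hl hl1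
  have hΩ : ⟪Ω, Ω⟫_ℂ = 1 := by
    have := hin 1 1
    rwa [map_one, ContinuousLinearMap.one_apply, star_one, one_mul, hl1] at this
  have hΩ0 : Ω ≠ 0 := by
    intro h; rw [h, inner_zero_left] at hΩ; exact zero_ne_one hΩ
  have hlv : ∀ a, l a = ⟪Ω, ρ a Ω⟫_ℂ := fun a => by
    have := hin 1 a
    rw [map_one, ContinuousLinearMap.one_apply, star_one, one_mul] at this
    exact this.symm
  have hρM : ∀ m ∈ M, ρ m = 0 := by
    intro m hm
    have h1 : ∀ b, ρ m (ρ b Ω) = 0 := by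
      intro b
      have h2 := hin (m * b) (m * b)
      rw [hlM _ (hM.1.1 _ _ (hM.1.2.1 _ _ hm)), inner_self_eq_zero, map_mul] at h2
      exact h2
    ext x
    exact hd.induction (P := fun x => ρ m x = 0) (by rintro _ ⟨b, rfl⟩; exact h1 b)
      (isClosed_eq (ρ m).continuous continuous_const) x
  have hn : ∀ c, ‖ρ c‖ ≤ ‖c‖ := fun c => NonUnitalStarAlgHom.norm_apply_le ρ c
  have g00 : ‖star (ρ T₀) * ρ T₀ - 1‖ ≤ 1 / 4 := by
    rw [← map_star, ← map_mul, ← map_one ρ, ← map_sub]; exact (hn _).trans h00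
  have g11 : ‖star (ρ T₁) * ρ T₁ - 1‖ ≤ 1 / 4 := by
    rw [← map_star, ← map_mul, ← map_one ρ, ← map_sub]; exact (hn _).trans h11
  have g01 : ‖star (ρ T₀) * ρ T₁‖ ≤ 1 / 4 := by
    rw [← map_star, ← map_mul]; exact (hn _).trans h01
  have g10 : ‖star (ρ T₁) * ρ T₀‖ ≤ 1 / 4 := by
    rw [← map_star, ← map_mul]; exact (hn _).trans h10
  haveI : Nontrivial H := ⟨⟨Ω, 0, hΩ0⟩⟩
  refine ⟨H, inferInstance, inferInstance, inferInstance, ρ, ?_, ?_, ?_⟩
  · intro h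
    rw [h, mul_zero, zero_sub, norm_neg, norm_one] at g00
    norm_num at g00
  · intro K hK hinv
    haveI : CompleteSpace K := hK.completeSpace_coe
    obtain ⟨u, hu, w, hw, huw⟩ := K.exists_add_mem_mem_orthogonal Ω
    have hinv' : ∀ (c : C) (x : H), x ∈ Kᗮ → ρ c x ∈ Kᗮ := by
      intro c x hx
      rw [Submodule.mem_orthogonal] at hx ⊢
      intro y hy
      rw [rho_inner]
      exact hx _ (hinv _ _ hy)
    by_cases hu0 : u = 0
    · left
      rw [hu0, zero_add] at huw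
      rw [eq_bot_iff]
      intro y hy
      rw [Submodule.mem_bot]
      refine eq_zero_of_dense hd y ?_
      rintro _ ⟨b, rfl⟩
      exact (Submodule.mem_orthogonal _ _).1 (hinv' b Ω (huw ▸ hw)) y hy
    by_cases hw0 : w = 0
    · right
      rw [hw0, add_zero] at huw
      rw [eq_top_iff]
      intro y _
      exact hd.induction (P := fun x => x ∈ K) (by
        rintro _ ⟨b, rfl⟩; exact hinv b Ω (huw ▸ hu)) hK y
    exfalso
    have huw0 : ∀ a, ⟪u, ρ a w⟫_ℂ = 0 := fun a =>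
      (Submodule.mem_orthogonal _ _).1 (hinv' a w hw) u hu
    have hwu0 : ∀ a, ⟪w, ρ a u⟫_ℂ = 0 := fun a =>
      (Submodule.mem_orthogonal' _ _).1 hw _ (hinv a u hu)
    have hsplit : ∀ a, l a = ⟪u, ρ a u⟫_ℂ + ⟪w, ρ a w⟫_ℂ := fun a => by
      rw [hlv, huw, map_add, inner_add_left, inner_add_right, inner_add_right, huw0, hwu0]
      ring
    have hsum : ‖u‖ ^ 2 + ‖w‖ ^ 2 = 1 := by
      have := hsplit 1
      rw [hl1, map_one, ContinuousLinearMap.one_apply, ContinuousLinearMap.one_apply,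
        inner_self_eq_norm_sq_to_K, inner_self_eq_norm_sq_to_K] at this
      have h' : (((‖u‖ ^ 2 + ‖w‖ ^ 2 : ℝ)) : ℂ) = 1 := by
        push_cast
        exact this.symm
      exact_mod_cast h'
    have hvM : ∀ v : H, ∀ x ∈ M, vecF ρ v x = 0 := fun v x hx => by
      rw [vecF_apply, hρM x hx]; simp
    have hup : 0 < ‖u‖ ^ 2 := pow_pos (norm_pos_iff.2 hu0) 2
    have hwp : 0 < ‖w‖ ^ 2 := pow_pos (norm_pos_iff.2 hw0) 2
    have he := hext (vecF ρ u) (vecF ρ w) _ _ hup hwp hsum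
      ⟨vecF_norm _ _, vecF_one _ _ hu0, hvM u⟩ ⟨vecF_norm _ _, vecF_one _ _ hw0, hvM w⟩
      (fun x => by rw [mul_vecF _ _ hu0, mul_vecF _ _ hw0, hsplit])
    have h5 : u - ((‖u‖ ^ 2 : ℝ) : ℂ) • Ω = 0 := by
      refine eq_zero_of_dense hd _ ?_
      rintro _ ⟨b, rfl⟩
      have e1 := mul_vecF ρ u hu0 b
      rw [he, hlv] at e1
      rw [inner_sub_left, inner_smul_left, Complex.conj_ofReal, e1]
      show ⟪u, ρ b Ω⟫_ℂ - _ = 0
      conv_lhs => rw [huw]
      rw [map_add, inner_add_right, huw0]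
      ring
    have h6 : ⟪w, u - ((‖u‖ ^ 2 : ℝ) : ℂ) • Ω⟫_ℂ = 0 := by rw [h5, inner_zero_right]
    have h7 : ⟪w, u⟫_ℂ = 0 := (Submodule.mem_orthogonal' _ _).1 hw _ hu
    rw [inner_sub_right, inner_smul_right, huw, inner_add_right, h7, inner_self_eq_norm_sq_to_K]
      at h6
    have h8 : (‖u‖ ^ 2 * ‖w‖ ^ 2 : ℝ) = 0 := by
      have : (((‖u‖ ^ 2 * ‖w‖ ^ 2 : ℝ)) : ℂ) = 0 := by
        push_cast at h6 ⊢
        linear_combination -h6
      exact_mod_cast this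
    exact (mul_pos hup hwp).ne' h8
  · let T : H →L[ℂ] H := (ContinuousLinearMap.toSpanSingleton ℂ Ω).comp (innerSL ℂ Ω)
    have hT : IsCompactOperator T :=
      (isCompactOperator_of_locallyCompactSpace_dom (innerSL ℂ Ω)).clm_comp
        (ContinuousLinearMap.toSpanSingleton ℂ Ω)
    refine ⟨T, hT, fun c hc => ?_⟩
    let J : Submodule ℂ C :=
      { carrier := {c | IsCompactOperator (ρ c)}
        add_mem' := fun {a b} ha hb => by
          show IsCompactOperator (ρ (a + b))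
          rw [map_add]; exact IsCompactOperator.add ha hb
        zero_mem' := by
          show IsCompactOperator (ρ 0)
          rw [map_zero]; exact isCompactOperator_zero
        smul_mem' := fun s a ha => by
          show IsCompactOperator (ρ (s • a))
          rw [map_smul]; exact IsCompactOperator.smul ha s }
    have hMJ : M ≤ J := fun m hm => by
      show IsCompactOperator (ρ m)
      rw [hρM m hm]; exact isCompactOperator_zero
    by_cases h1 : (1 : C) ∈ J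
    · have h2 : IsCompactOperator (ρ 1) := h1
      rw [map_one] at h2
      haveI : FiniteDimensional ℂ H := isCompactOperator_id_iff_finiteDimensional.1 h2
      exact not_subsingleton H (fin_contra _ _ g00 g11 g01 g10)
    · have hJ : J ∈ PI C := by
        refine ⟨fun x y hy => ?_, fun x y hx => ?_, h1⟩
        · show IsCompactOperator (ρ (x * y))
          rw [map_mul]
          exact IsCompactOperator.clm_comp hy (ρ x)
        · show IsCompactOperator (ρ (x * y))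
          rw [map_mul]
          exact IsCompactOperator.comp_clm hx (ρ y)
      have hcM : c ∈ M := hM.2 hJ hMJ (show IsCompactOperator (ρ c) by rw [hc]; exact hT)
      have h3 : T Ω = 0 := by rw [← hc, hρM c hcM]; rfl
      have h4 : T Ω = Ω := by
        show ⟪Ω, Ω⟫_ℂ • Ω = Ω
        rw [hΩ, one_smul]
      exact hΩ0 (h4 ▸ h3)

theorem not_typeI {B D : Type} [NonUnitalCStarAlgebra B] [CStarAlgebra D] [Nontrivial D]
    (e : B →⋆ₙₐ[ℂ] D) (b₀ b₁ : B)
    (h00 : ‖star (e b₀) * e b₀ - 1‖ ≤ 1 / 4) (h11 : ‖star (e b₁) * e b₁ - 1‖ ≤ 1 / 4)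
    (h01 : ‖star (e b₀) * e b₁‖ ≤ 1 / 4) (h10 : ‖star (e b₁) * e b₀‖ ≤ 1 / 4) : ¬ IsTypeI B := by
  intro hB
  let E : Unitization ℂ B →⋆ₐ[ℂ] D := Unitization.starLift e
  let C : StarSubalgebra ℂ D := E.range.topologicalClosure
  haveI hC : IsClosed (C : Set D) := StarSubalgebra.isClosed_topologicalClosure _
  have hE : ∀ u, E u ∈ C := fun u => StarSubalgebra.le_topologicalClosure _ ⟨u, rfl⟩
  let E' : Unitization ℂ B →⋆ₐ[ℂ] C := StarAlgHom.codRestrict E C hE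
  let e' : B →⋆ₙₐ[ℂ] C := Unitization.starLift.symm E'
  have he' : ∀ b, (e' b : D) = e b := fun b => by
    show E (b : Unitization ℂ B) = e b
    simp [E]
  have hn : ∀ x : C, ‖x‖ = ‖(x : D)‖ := fun x => rfl
  obtain ⟨H, _, _, _, ρ, h0, hirr, T, hT, hT'⟩ := exists_irr (C := C) (e' b₀) (e' b₁)
    (by rw [hn]; simpa [he'] using h00) (by rw [hn]; simpa [he'] using h11)
    (by rw [hn]; simpa [he'] using h01) (by rw [hn]; simpa [he'] using h10)
  let π : B →⋆ₙₐ[ℂ] (H →L[ℂ] H) := ρ.toNonUnitalStarAlgHom.comp e'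
  have hdense : DenseRange E' := by
    intro m
    have hm : (m : D) ∈ closure ((E.range : StarSubalgebra ℂ D) : Set D) := m.2
    rw [closure_subtype]
    refine closure_mono ?_ hm
    rintro _ ⟨u, rfl⟩
    exact ⟨E' u, ⟨u, rfl⟩, rfl⟩
  obtain ⟨b, hb⟩ := hB H π ⟨⟨b₀, h0⟩, fun K hK hinv => hirr K hK (fun c x hx => by
    refine hdense.induction_on (p := fun c => ρ c x ∈ K) c ?_ ?_
    · have hc : Continuous fun c : C => ρ c x :=
        (ContinuousLinearMap.apply ℂ H x).continuous.comp (map_continuous ρ)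
      exact hK.preimage hc
    · intro u
      have hu : u = algebraMap ℂ _ u.fst + (u.snd : Unitization ℂ B) :=
        (Unitization.inl_fst_add_inr_snd_eq u).symm
      rw [hu, map_add, map_add, AlgHomClass.commutes, AlgHomClass.commutes,
        ContinuousLinearMap.add_apply]
      refine K.add_mem ?_ (hinv u.snd x hx)
      rw [Algebra.algebraMap_eq_smul_one]
      exact K.smul_mem _ hx)⟩ T hT
  exact hT' _ hb

end Pool.Agent.H562Z.Cone
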