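import Pool.Agent.H562Z.Cone.Cone

/-!
# Completely positive approximation for an algebra generated by a Cuntz pair
-/

set_option autoImplicit false
set_option linter.unusedSectionVars false
set_option linter.style.haveILetI false
set_option linter.unusedSimpArgs false
set_option linter.deprecated false

namespace Pool.Agent.H562Z.Cone

open scoped CStarAlgebra ComplexOrder InnerProductSpace ComplexConjugate Topology
open Filter

/-- words of length `k` -/
def W : ℕ → Type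
  | 0 => Unit
  | k + 1 => Bool × W k

instance instFintypeW : (k : ℕ) → Fintype (W k)
  | 0 => inferInstanceAs (Fintype Unit)
  | k + 1 => @instFintypeProd Bool (W k) _ (instFintypeW k)

theorem sumW_succ {M : Type} [AddCommMonoid M] (k : ℕ) (F : W (k + 1) → M) :
    ∑ μ, F μ = ∑ i : Bool, ∑ ν : W k, F (i, ν) := Fintype.sum_prod_type (α₁ := Bool) (α₂ := W k) F

theorem sumW_zero {M : Type} [AddCommMonoid M] (F : W 0 → M) : ∑ μ, F μ = F () :=
  Fintype.sum_unique (ι := Unit) F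

variable {D H : Type} [CStarAlgebra D] [NormedAddCommGroup H] [InnerProductSpace ℂ H]
  [CompleteSpace H]

/-- the product along a word -/
def sw (S : Bool → D) : (k : ℕ) → W k → D
  | 0, _ => 1
  | k + 1, p => S p.1 * sw S k p.2

theorem sw_zero (S : Bool → D) (μ : W 0) : sw S 0 μ = 1 := rfl

theorem sw_succ (S : Bool → D) (k : ℕ) (i : Bool) (μ : W k) :
    sw S (k + 1) (i, μ) = S i * sw S k μ := rfl

/-- Cuntz pair data -/
structure Cz (S : Bool → D) (π : D →⋆ₐ[ℂ] (H →L[ℂ] H)) (ξ : H) : Prop where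
  rel : ∀ i j, star (S i) * S j = if i = j then 1 else 0
  sum : ∑ i, S i * star (S i) = 1
  unit : ⟪ξ, ξ⟫_ℂ = 1
  orth : ∀ (l : ℕ) (ν : W (l + 1)), ⟪ξ, π (sw S (l + 1) ν) ξ⟫_ℂ = 0
  gen : ∀ G : Submodule ℂ D, IsClosed (G : Set D) → (1 : D) ∈ G → (∀ i a, a ∈ G → S i * a ∈ G) →
    (∀ i a, a ∈ G → star (S i) * a ∈ G) → G = ⊤

variable {S : Bool → D} {π : D →⋆ₐ[ℂ] (H →L[ℂ] H)} {ξ : H}

theorem inner_mul (π : D →⋆ₐ[ℂ] (H →L[ℂ] H)) (a b c : D) (x y : H) :
    ⟪π (a * b) x, π c y⟫_ℂ = ⟪π b x, π (star a * c) y⟫_ℂ := by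
  rw [map_mul, map_mul, map_star, inner_star_mul]
  rfl

theorem Cz.step (h : Cz S π ξ) (i j : Bool) (b c : D) (y : H) :
    ⟪π (S i * b) ξ, π (S j * c) y⟫_ℂ = if i = j then ⟪π b ξ, π c y⟫_ℂ else 0 := by
  rw [inner_mul, ← mul_assoc, h.rel]
  split_ifs <;> simp

theorem Cz.level (h : Cz S π ξ) (k : ℕ) : ∑ μ, sw S k μ * star (sw S k μ) = 1 := by
  induction k with
  | zero => rw [sumW_zero, sw_zero, star_one, mul_one]
  | succ k ih =>
    rw [sumW_succ, ← h.sum]
    refine Finset.sum_congr rfl fun i _ => ?_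
    simp_rw [sw_succ, star_mul, mul_assoc]
    rw [← Finset.mul_sum]
    simp_rw [← mul_assoc]
    rw [← Finset.sum_mul, ih, one_mul]

theorem Cz.self (h : Cz S π ξ) (k : ℕ) (μ : W k) :
    ⟪π (sw S k μ) ξ, π (sw S k μ) ξ⟫_ℂ = 1 := by
  induction k with
  | zero => rw [sw_zero, map_one]; exact h.unit
  | succ k ih =>
    obtain ⟨i, μ⟩ := μ
    rw [sw_succ, h.step, if_pos rfl, ih]

theorem Cz.same (h : Cz S π ξ) (k : ℕ) (μ ν : W k) (hne : μ ≠ ν) :
    ⟪π (sw S k μ) ξ, π (sw S k ν) ξ⟫_ℂ = 0 := by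
  induction k with
  | zero => exact absurd (Subsingleton.elim (α := Unit) μ ν) hne
  | succ k ih =>
    obtain ⟨i, μ⟩ := μ
    obtain ⟨j, ν⟩ := ν
    rw [sw_succ, sw_succ, h.step]
    split_ifs with hij
    · exact ih μ ν fun e => hne (by rw [hij, e])
    · rfl

theorem Cz.diff (h : Cz S π ξ) (k l : ℕ) (hne : k ≠ l) (μ : W k) (ν : W l) :
    ⟪π (sw S k μ) ξ, π (sw S l ν) ξ⟫_ℂ = 0 := by
  induction k generalizing l with
  | zero =>
    cases l with
    | zero => exact absurd rfl hne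
    | succ l => rw [sw_zero, map_one]; exact h.orth l ν
  | succ k ih =>
    cases l with
    | zero => rw [sw_zero, map_one, inner_eq_zero_symm]; exact h.orth k μ
    | succ l =>
      obtain ⟨i, μ⟩ := μ
      obtain ⟨j, ν⟩ := ν
      rw [sw_succ, sw_succ, h.step]
      split_ifs with hij
      · exact ih l (fun e => hne (by rw [e])) μ ν
      · rfl

theorem orthonormal_of {X : Type} (v : X → H) (h1 : ∀ x, ⟪v x, v x⟫_ℂ = 1)
    (h2 : ∀ x y, x ≠ y → ⟪v x, v y⟫_ℂ = 0) : Orthonormal ℂ v := by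
  classical
  rw [orthonormal_iff_ite]
  intro x y
  split_ifs with hxy
  · rw [hxy, h1]
  · exact h2 x y hxy

theorem Cz.on_level (h : Cz S π ξ) (k : ℕ) : Orthonormal ℂ fun μ : W k => π (sw S k μ) ξ :=
  orthonormal_of _ (h.self k) (h.same k)

/-- words of length at most `N` -/
abbrev XN (N : ℕ) : Type := Σ k : Fin (N + 1), W k

theorem Cz.on_all (h : Cz S π ξ) (N : ℕ) :
    Orthonormal ℂ fun x : XN N => π (sw S x.1 x.2) ξ := by
  refine orthonormal_of _ (fun x => h.self _ _) ?_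
  rintro ⟨k, μ⟩ ⟨l, ν⟩ hne
  by_cases hkl : k = l
  · subst hkl
    exact h.same _ _ _ fun e => hne (by rw [show μ = ν from e])
  · exact h.diff _ _ (fun e => hkl (Fin.ext e)) _ _

theorem Cz.total (h : Cz S π ξ) (N : ℕ) :
    ∑ x : XN N, sw S x.1 x.2 * star (sw S x.1 x.2) = ((N + 1 : ℕ) : ℂ) • (1 : D) := by
  rw [Fintype.sum_sigma]
  simp_rw [h.level]
  rw [Finset.sum_const, Finset.card_univ, Fintype.card_fin, Nat.cast_smul_eq_nsmul]

/-- rows of level `k` -/
noncomputable def Row (S : Bool → D) (π : D →⋆ₐ[ℂ] (H →L[ℂ] H)) (ξ : H) (N k : ℕ) (a : D) : D :=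
  ∑ μ : W k, ∑ y : XN N, ⟪π (sw S k μ) ξ, π a (π (sw S y.1 y.2) ξ)⟫_ℂ •
    (sw S k μ * star (sw S y.1 y.2))

theorem Cz.row_left (h : Cz S π ξ) (N k : ℕ) (i : Bool) (a : D) :
    Row S π ξ N (k + 1) (S i * a) = S i * Row S π ξ N k a := by
  rw [Row, Row, sumW_succ, Finset.sum_eq_single i, Finset.mul_sum]
  · refine Finset.sum_congr rfl fun μ _ => ?_
    rw [Finset.mul_sum]
    refine Finset.sum_congr rfl fun y _ => ?_
    rw [sw_succ, h.step, if_pos rfl, mul_smul_comm, mul_assoc]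
  · intro j _ hj
    refine Finset.sum_eq_zero fun μ _ => Finset.sum_eq_zero fun y _ => ?_
    rw [sw_succ, h.step, if_neg hj, zero_smul]
  · simp

theorem Cz.row_star (h : Cz S π ξ) (N k : ℕ) (i : Bool) (a : D) :
    star (S i) * Row S π ξ N (k + 1) a = Row S π ξ N k (star (S i) * a) := by
  rw [Row, Row, sumW_succ, Finset.mul_sum, Finset.sum_eq_single i, Finset.mul_sum]
  · refine Finset.sum_congr rfl fun μ _ => ?_
    rw [Finset.mul_sum]
    refine Finset.sum_congr rfl fun y _ => ?_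
    rw [sw_succ, inner_mul, mul_smul_comm, ← mul_assoc, ← mul_assoc, h.rel, if_pos rfl, one_mul]
  · intro j _ hj
    rw [Finset.mul_sum]
    refine Finset.sum_eq_zero fun μ _ => ?_
    rw [Finset.mul_sum]
    refine Finset.sum_eq_zero fun y _ => ?_
    rw [sw_succ, mul_smul_comm, ← mul_assoc, ← mul_assoc, h.rel, if_neg (Ne.symm hj), zero_mul,
      zero_mul, smul_zero]
  · simp

theorem Cz.row_norm (h : Cz S π ξ) (N k : ℕ) (a : D) :
    ‖Row S π ξ N k a‖ ≤ √((N + 1 : ℕ) : ℝ) * ‖a‖ := by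
  have h1 := tcs _ _ (h.on_level k) (h.on_all N) (fun μ => sw S k μ)
    (fun y : XN N => sw S y.1 y.2) (π a)
  rw [h.level, h.total] at h1
  have h2 : ‖((N + 1 : ℕ) : ℂ) • (1 : D)‖ ≤ ((N + 1 : ℕ) : ℝ) := by
    rw [norm_smul, Complex.norm_natCast]
    exact mul_le_of_le_one_right (by positivity) norm_one_le'
  have h3 : ‖π a‖ ≤ ‖a‖ := NonUnitalStarAlgHom.norm_apply_le π a
  have h4 : ‖Row S π ξ N k a‖ ^ 2 ≤ (√((N + 1 : ℕ) : ℝ) * ‖a‖) ^ 2 := by
    rw [mul_pow, Real.sq_sqrt (by positivity)]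
    refine h1.trans ?_
    calc _ ≤ 1 * (((N + 1 : ℕ) : ℝ) * ‖a‖ ^ 2) := by
          gcongr
          exact norm_one_le'
      _ = _ := one_mul _
  exact (pow_le_pow_iff_left₀ (norm_nonneg _) (by positivity) two_ne_zero).1 h4

/-- normalised words -/
noncomputable def sN (S : Bool → D) (N : ℕ) (x : XN N) : D :=
  (((√((N + 1 : ℕ) : ℝ))⁻¹ : ℝ) : ℂ) • sw S x.1 x.2

theorem sN_mul (S : Bool → D) (N : ℕ) (x y : XN N) : sN S N x * star (sN S N y) =
    (((N + 1 : ℕ) : ℂ))⁻¹ • (sw S x.1 x.2 * star (sw S y.1 y.2)) := by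
  rw [sN, sN, star_smul, smul_mul_smul_comm]
  congr 1
  rw [Complex.star_def, Complex.conj_ofReal, ← Complex.ofReal_mul, ← mul_inv,
    Real.mul_self_sqrt (by positivity)]
  push_cast
  rfl

theorem Cz.sN_total (h : Cz S π ξ) (N : ℕ) : ∑ x, sN S N x * star (sN S N x) = 1 := by
  simp_rw [sN_mul]
  rw [← Finset.smul_sum, h.total, smul_smul, inv_mul_cancel₀, one_smul]
  exact_mod_cast Nat.succ_ne_zero N

/-- the approximating maps -/
noncomputable def th (S : Bool → D) (π : D →⋆ₐ[ℂ] (H →L[ℂ] H)) (ξ : H) (N : ℕ) : D →ₗ[ℂ] D :=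
  (thL (fun x : XN N => π (sw S x.1 x.2) ξ) (sN S N)).comp π.toAlgHom.toLinearMap

theorem th_apply (N : ℕ) (a : D) : th S π ξ N a =
    ∑ x : XN N, ∑ y : XN N, ⟪π (sw S x.1 x.2) ξ, π a (π (sw S y.1 y.2) ξ)⟫_ℂ •
      (sN S N x * star (sN S N y)) := rfl

theorem th_eq (N : ℕ) (a : D) : th S π ξ N a =
    (((N + 1 : ℕ) : ℂ))⁻¹ • ∑ k ∈ Finset.range (N + 1), Row S π ξ N k a := by
  rw [th_apply, Fintype.sum_sigma, Finset.sum_range, Finset.smul_sum]
  refine Finset.sum_congr rfl fun k _ => ?_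
  rw [Row, Finset.smul_sum]
  refine Finset.sum_congr rfl fun μ _ => ?_
  rw [Finset.smul_sum]
  refine Finset.sum_congr rfl fun y _ => ?_
  rw [sN_mul, smul_comm]

theorem Cz.th_one (h : Cz S π ξ) (N : ℕ) : th S π ξ N 1 = 1 := by
  rw [th_apply, map_one, ← h.sN_total N, ← sum_orth _ (h.on_all N)]
  rfl

theorem Cz.th_norm (h : Cz S π ξ) (N : ℕ) (a : D) : ‖th S π ξ N a‖ ≤ ‖a‖ := by
  have h1 := tcs _ _ (h.on_all N) (h.on_all N) (sN S N) (sN S N) (π a)
  rw [h.sN_total, ← th_apply] at h1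
  have h3 : ‖π a‖ ≤ ‖a‖ := NonUnitalStarAlgHom.norm_apply_le π a
  have h4 : ‖th S π ξ N a‖ ^ 2 ≤ ‖a‖ ^ 2 := by
    refine h1.trans ?_
    calc _ ≤ 1 * (1 * ‖a‖ ^ 2) := by
          gcongr <;> exact norm_one_le'
      _ = _ := by ring
  exact (pow_le_pow_iff_left₀ (norm_nonneg _) (by positivity) two_ne_zero).1 h4

theorem Cz.S_norm (h : Cz S π ξ) (i : Bool) : ‖S i‖ ≤ 1 :=
  iso_norm _ (by rw [h.rel, if_pos rfl])

theorem small_bd (N : ℕ) (u v : D) (c : ℝ) (hu : ‖u‖ ≤ √((N + 1 : ℕ) : ℝ) * c)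
    (hv : ‖v‖ ≤ √((N + 1 : ℕ) : ℝ) * c) :
    ‖(((N + 1 : ℕ) : ℂ))⁻¹ • (u - v)‖ ≤ 2 * c * (√((N + 1 : ℕ) : ℝ))⁻¹ := by
  have hp : 0 < √((N + 1 : ℕ) : ℝ) := Real.sqrt_pos.2 (by positivity)
  have hs : √((N + 1 : ℕ) : ℝ) * √((N + 1 : ℕ) : ℝ) = ((N + 1 : ℕ) : ℝ) :=
    Real.mul_self_sqrt (by positivity)
  rw [norm_smul, norm_inv, Complex.norm_natCast, inv_mul_le_iff₀ (by positivity)]
  refine (norm_sub_le _ _).trans ((add_le_add hu hv).trans (le_of_eq ?_))
  generalize √((N + 1 : ℕ) : ℝ) = r at hp hs ⊢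
  rw [← hs]
  field_simp
  ring

theorem Cz.comm_left (h : Cz S π ξ) (N : ℕ) (i : Bool) (a : D) :
    ‖th S π ξ N (S i * a) - S i * th S π ξ N a‖ ≤ 2 * ‖a‖ * (√((N + 1 : ℕ) : ℝ))⁻¹ := by
  have e : th S π ξ N (S i * a) - S i * th S π ξ N a =
      (((N + 1 : ℕ) : ℂ))⁻¹ • (Row S π ξ N 0 (S i * a) - S i * Row S π ξ N N a) := by
    rw [th_eq, th_eq, mul_smul_comm, ← smul_sub, Finset.sum_range_succ', Finset.sum_range_succ,
      mul_add, Finset.mul_sum]
    simp_rw [h.row_left]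
    congr 1
    abel
  rw [e]
  have hS := h.S_norm i
  refine small_bd N _ _ _ ((h.row_norm _ _ _).trans ?_) ((norm_mul_le _ _).trans ?_)
  · gcongr
    exact (norm_mul_le _ _).trans (mul_le_of_le_one_left (norm_nonneg _) hS)
  · exact (mul_le_of_le_one_left (norm_nonneg _) hS).trans (h.row_norm _ _ _)

theorem Cz.comm_star (h : Cz S π ξ) (N : ℕ) (i : Bool) (a : D) :
    ‖th S π ξ N (star (S i) * a) - star (S i) * th S π ξ N a‖ ≤
      2 * ‖a‖ * (√((N + 1 : ℕ) : ℝ))⁻¹ := by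
  have e : th S π ξ N (star (S i) * a) - star (S i) * th S π ξ N a =
      (((N + 1 : ℕ) : ℂ))⁻¹ •
        (Row S π ξ N N (star (S i) * a) - star (S i) * Row S π ξ N 0 a) := by
    rw [th_eq, th_eq, mul_smul_comm, ← smul_sub, Finset.sum_range_succ, Finset.sum_range_succ',
      mul_add, Finset.mul_sum]
    simp_rw [h.row_star]
    congr 1
    abel
  rw [e]
  have hS : ‖star (S i)‖ ≤ 1 := by rw [norm_star]; exact h.S_norm i
  refine small_bd N _ _ _ ((h.row_norm _ _ _).trans ?_) ((norm_mul_le _ _).trans ?_)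
  · gcongr
    exact (norm_mul_le _ _).trans (mul_le_of_le_one_left (norm_nonneg _) hS)
  · exact (mul_le_of_le_one_left (norm_nonneg _) hS).trans (h.row_norm _ _ _)

theorem tend_sqrt (c : ℝ) : Tendsto (fun N : ℕ => c * (√((N + 1 : ℕ) : ℝ))⁻¹) atTop (𝓝 0) := by
  have h1 : Tendsto (fun N : ℕ => √((N + 1 : ℕ) : ℝ)) atTop atTop :=
    Real.tendsto_sqrt_atTop.comp (tendsto_natCast_atTop_atTop.comp (tendsto_add_atTop_nat 1))
  simpa using h1.inv_tendsto_atTop.const_mul c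

theorem tend_mul (θ : ℕ → D →ₗ[ℂ] D) (T a : D) (c : ℝ)
    (h : ∀ N, ‖θ N (T * a) - T * θ N a‖ ≤ c * (√((N + 1 : ℕ) : ℝ))⁻¹)
    (ha : Tendsto (fun N => θ N a) atTop (𝓝 a)) :
    Tendsto (fun N => θ N (T * a)) atTop (𝓝 (T * a)) := by
  have h1 : Tendsto (fun N => θ N (T * a) - T * θ N a) atTop (𝓝 0) :=
    squeeze_zero_norm h (tend_sqrt c)
  simpa using h1.add (ha.const_mul T)

theorem Cz.tendsto (h : Cz S π ξ) (a : D) : Tendsto (fun N => th S π ξ N a) atTop (𝓝 a) := by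
  let G : Submodule ℂ D :=
    { carrier := {a | Tendsto (fun N => th S π ξ N a) atTop (𝓝 a)}
      add_mem' := fun {a b} ha hb => by
        simpa only [Set.mem_setOf_eq, map_add] using Tendsto.add ha hb
      zero_mem' := by simp
      smul_mem' := fun c a ha => by
        simpa only [Set.mem_setOf_eq, map_smul] using Tendsto.const_smul ha c }
  have hG : G = ⊤ := by
    refine h.gen G ?_ ?_ (fun i a ha => tend_mul _ _ _ _ (fun N => h.comm_left N i a) ha)
      (fun i a ha => tend_mul _ _ _ _ (fun N => h.comm_star N i a) ha)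
    · refine isClosed_of_closure_subset fun a ha => ?_
      show Tendsto (fun N => th S π ξ N a) atTop (𝓝 a)
      rw [Metric.tendsto_nhds]
      intro ε hε
      obtain ⟨b, hb, hab⟩ := Metric.mem_closure_iff.1 ha (ε / 3) (by positivity)
      filter_upwards [Metric.tendsto_nhds.1 hb (ε / 3) (by positivity)] with N hN
      have h1 : dist (th S π ξ N a) (th S π ξ N b) ≤ dist a b := by
        rw [dist_eq_norm, dist_eq_norm, ← map_sub]
        exact h.th_norm N _
      have h2 := dist_triangle4 (th S π ξ N a) (th S π ξ N b) b a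
      rw [dist_comm b a] at h2
      linarith
    · show Tendsto (fun N => th S π ξ N 1) atTop (𝓝 1)
      simp_rw [h.th_one]
      exact tendsto_const_nhds
  have : a ∈ G := hG ▸ Submodule.mem_top
  exact this

theorem Cz.hn (h : Cz S π ξ) : HN π := by
  intro F ε hε
  have hev : ∀ᶠ N in atTop, ∀ a ∈ F, ‖th S π ξ N a - a‖ < ε := by
    rw [Filter.eventually_all_finset]
    intro a _
    simpa only [dist_eq_norm] using Metric.tendsto_nhds.1 (h.tendsto a) ε hε
  obtain ⟨N, hN⟩ := hev.exists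
  exact ⟨XN N, inferInstance, ⟨⟨0, ()⟩⟩, _, sN S N, h.on_all N, h.sN_total N, hN⟩

theorem Cz.separable (h : Cz S π ξ) : TopologicalSpace.SeparableSpace D := by
  let g : Bool × Bool → D := fun p => if p.1 then S p.2 else star (S p.2)
  let M : Set D := Set.range fun l : List (Bool × Bool) => (l.map g).prod
  have key : ∀ p a, a ∈ (Submodule.span ℂ M).topologicalClosure →
      g p * a ∈ (Submodule.span ℂ M).topologicalClosure := by
    intro p a ha
    refine map_mem_closure (f := fun a => g p * a) (continuous_const.mul continuous_id) ha ?_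
    intro x hx
    show g p * x ∈ Submodule.span ℂ M
    induction hx using Submodule.span_induction with
    | mem x hx =>
      obtain ⟨l, rfl⟩ := hx
      exact Submodule.subset_span ⟨p :: l, by simp⟩
    | zero => simp
    | add x y _ _ hx hy => rw [mul_add]; exact Submodule.add_mem _ hx hy
    | smul c x _ hx => rw [mul_smul_comm]; exact Submodule.smul_mem _ _ hx
  have hG := h.gen (Submodule.span ℂ M).topologicalClosure
    (Submodule.isClosed_topologicalClosure _)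
    (Submodule.le_topologicalClosure _ (Submodule.subset_span ⟨[], by simp⟩))
    (fun i a ha => by simpa [g] using key (true, i) a ha)
    (fun i a ha => by simpa [g] using key (false, i) a ha)
  have h1 : TopologicalSpace.IsSeparable (Submodule.span ℂ M : Set D) :=
    (Set.countable_range _).isSeparable.span
  have h2 := h1.closure
  rw [← Submodule.topologicalClosure_coe, hG, Submodule.top_coe] at h2
  exact TopologicalSpace.isSeparable_univ_iff.1 h2

end Pool.Agent.H562Z.Cone
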